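import Pool.Agent.H21.Sylv.Variation

/-! Blow-up of the second variation at a density point. -/

open MeasureTheory ProbabilityTheory Filter Topology
open scoped Pointwise

namespace Pool.Agent.H21.Sylv

/-- dilation about `x₀` -/
noncomputable def dil (x₀ : Pt) (r : ℝ) (u : Pt) : Pt := x₀ + r • u

lemma continuous_dil (x₀ : Pt) (r : ℝ) : Continuous (dil x₀ r) := by
  unfold dil; fun_prop

lemma measurable_dil (x₀ : Pt) (r : ℝ) : Measurable (dil x₀ r) := (continuous_dil x₀ r).measurable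

/-- scaling constant -/
noncomputable def kc (r : ℝ) : ENNReal := ENNReal.ofReal (abs (r ^ 2)⁻¹)

lemma kc_ne_zero {r : ℝ} (hr : r ≠ 0) : kc r ≠ 0 := by
  unfold kc
  rw [ne_eq, ENNReal.ofReal_eq_zero, not_le]
  positivity

lemma kc_ne_top {r : ℝ} : kc r ≠ ⊤ := ENNReal.ofReal_ne_top

lemma vol_dil_preimage (x₀ : Pt) {r : ℝ} (hr : r ≠ 0) (s : Set Pt) :
    volume (dil x₀ r ⁻¹' s) = kc r * volume s := by
  have h1 : dil x₀ r ⁻¹' s = (r • ·) ⁻¹' ((fun y => x₀ + y) ⁻¹' s) := rfl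
  rw [h1, Measure.addHaar_preimage_smul volume hr, measure_preimage_add]
  simp [kc]

lemma dil_injective (x₀ : Pt) {r : ℝ} (hr : r ≠ 0) : Function.Injective (dil x₀ r) := by
  intro a b hab
  unfold dil at hab
  exact smul_right_injective Pt hr (add_left_cancel hab)

lemma cond_dil {x₀ : Pt} {r : ℝ} (hr : r ≠ 0) {D A : Set Pt} (hD : MeasurableSet D)
    (hA : MeasurableSet A) (hDt : volume D ≠ ⊤) :
    (volume[|D])[|A] = Measure.map (dil x₀ r) (volume[|dil x₀ r ⁻¹' (D ∩ A)]) := by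
  rw [cond_cond_eq_cond_inter' hD hA hDt]
  ext E hE
  rw [Measure.map_apply (measurable_dil _ _) hE, cond_apply (hD.inter hA),
    cond_apply ((hD.inter hA).preimage (measurable_dil _ _)), ← Set.preimage_inter,
    vol_dil_preimage _ hr, vol_dil_preimage _ hr, ENNReal.mul_inv (Or.inl (kc_ne_zero hr))
      (Or.inl kc_ne_top)]
  have h : (kc r)⁻¹ * kc r = 1 := ENNReal.inv_mul_cancel (kc_ne_zero hr) kc_ne_top
  calc (volume (D ∩ A))⁻¹ * volume (D ∩ A ∩ E)
      = ((kc r)⁻¹ * kc r) * ((volume (D ∩ A))⁻¹ * volume (D ∩ A ∩ E)) := by rw [h, one_mul]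
    _ = _ := by ring

lemma pi_cond' (a b c d : Measure Pt) [IsProbabilityMeasure a] [IsProbabilityMeasure b]
    [IsProbabilityMeasure c] [IsProbabilityMeasure d] {A B : Set Pt} (hA : MeasurableSet A)
    (hB : MeasurableSet B) (hA0 : a A ≠ 0) (hB0 : b B ≠ 0) :
    Measure.pi ![a[|A], b[|B], c, d] = ((a A)⁻¹ * (b B)⁻¹) •
      (Measure.pi ![a, b, c, d]).restrict {x | x 0 ∈ A ∧ x 1 ∈ B} := by
  have hPA : IsProbabilityMeasure (a[|A]) := cond_isProbabilityMeasure hA0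
  have hPB : IsProbabilityMeasure (b[|B]) := cond_isProbabilityMeasure hB0
  have := prob4 (a[|A]) (b[|B]) c d
  have := prob4 a b c d
  apply Measure.pi_eq
  intro s hs
  rw [Measure.smul_apply, Measure.restrict_apply (MeasurableSet.univ_pi hs)]
  have h1 : Set.univ.pi s ∩ {x : Fin 4 → Pt | x 0 ∈ A ∧ x 1 ∈ B} =
      Set.univ.pi ![A ∩ s 0, B ∩ s 1, s 2, s 3] := by
    ext x
    simp only [Set.mem_inter_iff, Set.mem_pi, Set.mem_univ, true_implies, Fin.forall_fin_succ,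
      Set.mem_ofPred_eq, Matrix.cons_val]
    simp
    tauto
  rw [h1, Measure.pi_pi, Fin.prod_univ_four, Fin.prod_univ_four]
  simp only [Matrix.cons_val, cond_apply hA, cond_apply hB, smul_eq_mul]
  ring

/-- mixed product with dilated first two points -/
lemma pi_map_dil (x₀ : Pt) (r : ℝ) (a b c d : Measure Pt) [IsProbabilityMeasure a]
    [IsProbabilityMeasure b] [IsProbabilityMeasure c] [IsProbabilityMeasure d] :
    Measure.pi ![Measure.map (dil x₀ r) a, Measure.map (dil x₀ r) b, c, d] =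
      Measure.map (fun x : Fin 4 → Pt => (![dil x₀ r (x 0), dil x₀ r (x 1), x 2, x 3] : Fin 4 → Pt))
        (Measure.pi ![a, b, c, d]) := by
  have hPA : IsProbabilityMeasure (Measure.map (dil x₀ r) a) :=
    Measure.isProbabilityMeasure_map (measurable_dil _ _).aemeasurable
  have hPB : IsProbabilityMeasure (Measure.map (dil x₀ r) b) :=
    Measure.isProbabilityMeasure_map (measurable_dil _ _).aemeasurable
  have := prob4 (Measure.map (dil x₀ r) a) (Measure.map (dil x₀ r) b) c d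
  have := prob4 a b c d
  have hm : Measurable (fun x : Fin 4 → Pt =>
      (![dil x₀ r (x 0), dil x₀ r (x 1), x 2, x 3] : Fin 4 → Pt)) := by
    rw [measurable_pi_iff]
    intro i
    fin_cases i
    · exact (measurable_dil _ _).comp (measurable_pi_apply 0)
    · exact (measurable_dil _ _).comp (measurable_pi_apply 1)
    · exact measurable_pi_apply 2
    · exact measurable_pi_apply 3
  apply Measure.pi_eq
  intro s hs
  rw [Measure.map_apply hm (MeasurableSet.univ_pi hs)]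
  have h1 : (fun x : Fin 4 → Pt => (![dil x₀ r (x 0), dil x₀ r (x 1), x 2, x 3] : Fin 4 → Pt)) ⁻¹'
      (Set.univ.pi s) = Set.univ.pi ![dil x₀ r ⁻¹' s 0, dil x₀ r ⁻¹' s 1, s 2, s 3] := by
    ext x
    simp [Set.mem_pi, Fin.forall_fin_succ]
  rw [h1, Measure.pi_pi, Fin.prod_univ_four, Fin.prod_univ_four]
  simp only [Matrix.cons_val, Measure.map_apply (measurable_dil x₀ r) (hs _)]

/-- the dilated set -/
def dset (x₀ : Pt) (r : ℝ) (S : Set Pt) : Set Pt := (fun y => r⁻¹ • (y - x₀)) ⁻¹' S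

lemma measurableSet_dset {x₀ : Pt} {r : ℝ} {S : Set Pt} (hS : MeasurableSet S) :
    MeasurableSet (dset x₀ r S) := hS.preimage (by fun_prop)

lemma dil_preimage_dset {x₀ : Pt} {r : ℝ} (hr : r ≠ 0) (S : Set Pt) :
    dil x₀ r ⁻¹' (dset x₀ r S) = S := by
  ext u
  simp [dset, dil, smul_smul, inv_mul_cancel₀ hr]

lemma cond_dset {x₀ : Pt} {r : ℝ} (hr : r ≠ 0) {D S : Set Pt} (hD : MeasurableSet D)
    (hS : MeasurableSet S) (hDt : volume D ≠ ⊤) (hSt : volume S ≠ ⊤) :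
    (volume[|D])[|dset x₀ r S] = Measure.map (dil x₀ r) ((volume[|S])[|dil x₀ r ⁻¹' D]) := by
  rw [cond_dil hr hD (measurableSet_dset hS) hDt, Set.preimage_inter, dil_preimage_dset hr,
    cond_cond_eq_cond_inter' hS (hD.preimage (measurable_dil _ _)) hSt, Set.inter_comm]

lemma G_blow {x₀ : Pt} {r : ℝ} (hr : r ≠ 0) {D S T : Set Pt} (hD : MeasurableSet D)
    (hS : MeasurableSet S) (hT : MeasurableSet T) (hD0 : volume D ≠ 0) (hDt : volume D ≠ ⊤)
    (hS0 : volume S ≠ 0) (hSt : volume S ≠ ⊤) (hT0 : volume T ≠ 0) (hTt : volume T ≠ ⊤)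
    (hDS : (volume[|S]) (dil x₀ r ⁻¹' D) ≠ 0) (hDT : (volume[|T]) (dil x₀ r ⁻¹' D) ≠ 0) :
    G (volume[|D]) ((volume[|D])[|dset x₀ r S]) ((volume[|D])[|dset x₀ r T]) =
      ((volume[|S]).real (dil x₀ r ⁻¹' D))⁻¹ * ((volume[|T]).real (dil x₀ r ⁻¹' D))⁻¹ *
      (Measure.pi ![volume[|S], volume[|T], volume[|D], volume[|D]]).real
        ({x | 0 < prd (dil x₀ r (x 0)) (dil x₀ r (x 1)) (x 2) (x 3)} ∩
          {x | x 0 ∈ dil x₀ r ⁻¹' D ∧ x 1 ∈ dil x₀ r ⁻¹' D}) := by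
  have i1 : IsProbabilityMeasure (volume[|S]) := cond_isProbabilityMeasure_of_finite hS0 hSt
  have i2 : IsProbabilityMeasure (volume[|T]) := cond_isProbabilityMeasure_of_finite hT0 hTt
  have i3 : IsProbabilityMeasure (volume[|D]) := cond_isProbabilityMeasure_of_finite hD0 hDt
  have i4 : IsProbabilityMeasure ((volume[|S])[|dil x₀ r ⁻¹' D]) :=
    cond_isProbabilityMeasure hDS
  have i5 : IsProbabilityMeasure ((volume[|T])[|dil x₀ r ⁻¹' D]) :=
    cond_isProbabilityMeasure hDT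
  have hDr : MeasurableSet (dil x₀ r ⁻¹' D) := hD.preimage (measurable_dil _ _)
  rw [G, cond_dset hr hD hS hDt hSt, cond_dset hr hD hT hDt hTt, pi_map_dil]
  have hm : Measurable (fun x : Fin 4 → Pt =>
      (![dil x₀ r (x 0), dil x₀ r (x 1), x 2, x 3] : Fin 4 → Pt)) := by
    rw [measurable_pi_iff]
    intro i
    fin_cases i
    · exact (measurable_dil _ _).comp (measurable_pi_apply 0)
    · exact (measurable_dil _ _).comp (measurable_pi_apply 1)
    · exact measurable_pi_apply 2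
    · exact measurable_pi_apply 3
  have h1 : (fun x : Fin 4 → Pt => (![dil x₀ r (x 0), dil x₀ r (x 1), x 2, x 3] : Fin 4 → Pt)) ⁻¹'
      C4 = {x | 0 < prd (dil x₀ r (x 0)) (dil x₀ r (x 1)) (x 2) (x 3)} := by
    ext x
    simp [C4, prd4]
  have hm2 : MeasurableSet {x : Fin 4 → Pt |
      0 < prd (dil x₀ r (x 0)) (dil x₀ r (x 1)) (x 2) (x 3)} := by
    rw [← h1]; exact measurableSet_C4.preimage hm
  rw [measureReal_def, Measure.map_apply hm measurableSet_C4, h1, pi_cond' _ _ _ _ hDr hDr hDS hDT,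
    Measure.smul_apply, Measure.restrict_apply hm2, smul_eq_mul, ENNReal.toReal_mul,
    ENNReal.toReal_mul, ENNReal.toReal_inv, ENNReal.toReal_inv]
  rfl

/-- density one in the form used below -/
lemma density_cond {D : Set Pt} {x₀ : Pt}
    (hx : Tendsto (fun r => volume (D ∩ Metric.closedBall x₀ r) /
      volume (Metric.closedBall x₀ r)) (𝓝[>] 0) (𝓝 1)) {U : Set Pt} (hU : MeasurableSet U)
    (hU0 : volume U ≠ 0) (hUt : volume U ≠ ⊤) :
    Tendsto (fun r => (volume[|U]) (dil x₀ r ⁻¹' D)) (𝓝[>] 0) (𝓝 1) := by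
  have h := Measure.tendsto_addHaar_inter_smul_one_of_density_one volume D x₀ hx U hU hU0 hUt
  refine h.congr' ?_
  filter_upwards [self_mem_nhdsWithin] with r hr
  have hr0 : r ≠ 0 := (Set.mem_Ioi.mp hr).ne'
  have h1 : dil x₀ r ⁻¹' ({x₀} + r • U) = U := by
    ext u
    simp only [Set.mem_preimage, dil, Set.singleton_add, Set.mem_image, Set.mem_smul_set]
    constructor
    · rintro ⟨y, ⟨z, hz, rfl⟩, hy⟩
      have := smul_right_injective Pt hr0 (add_left_cancel hy)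
      rwa [← this]
    · intro hu
      exact ⟨r • u, ⟨u, hu, rfl⟩, rfl⟩
  rw [cond_apply hU]
  have h2 : volume U = kc r * volume ({x₀} + r • U) := by
    rw [← vol_dil_preimage x₀ hr0, h1]
  have h3 : volume (U ∩ dil x₀ r ⁻¹' D) = kc r * volume (D ∩ ({x₀} + r • U)) := by
    rw [← vol_dil_preimage x₀ hr0, Set.preimage_inter, h1, Set.inter_comm]
  rw [h2, h3, ENNReal.mul_inv (Or.inl (kc_ne_zero hr0)) (Or.inl kc_ne_top)]
  have h : (kc r)⁻¹ * kc r = 1 := ENNReal.inv_mul_cancel (kc_ne_zero hr0) kc_ne_top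
  rw [div_eq_mul_inv]
  calc volume (D ∩ ({x₀} + r • U)) * (volume ({x₀} + r • U))⁻¹
      = ((kc r)⁻¹ * kc r) * (volume (D ∩ ({x₀} + r • U)) * (volume ({x₀} + r • U))⁻¹) := by
        rw [h, one_mul]
    _ = _ := by ring

/-- good sequence of scales -/
lemma exists_scales {D : Set Pt} (hD : MeasurableSet D) {x₀ : Pt}
    (hx : Tendsto (fun r => volume (D ∩ Metric.closedBall x₀ r) /
      volume (Metric.closedBall x₀ r)) (𝓝[>] 0) (𝓝 1)) {U : Set Pt} (hU : MeasurableSet U)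
    (hU0 : volume U ≠ 0) (hUt : volume U ≠ ⊤) :
    ∃ r : ℕ → ℝ, (∀ n, 0 < r n) ∧ Tendsto r atTop (𝓝 0) ∧
      ∀ᵐ u ∂(volume[|U]), ∀ᶠ n in atTop, u ∈ dil x₀ (r n) ⁻¹' D := by
  have i1 : IsProbabilityMeasure (volume[|U]) := cond_isProbabilityMeasure_of_finite hU0 hUt
  have h := density_cond hx hU hU0 hUt
  have hc : Tendsto (fun r => (volume[|U]) (dil x₀ r ⁻¹' D)ᶜ) (𝓝[>] 0) (𝓝 0) := by
    have h1 : ∀ r, (volume[|U]) (dil x₀ r ⁻¹' D)ᶜ = 1 - (volume[|U]) (dil x₀ r ⁻¹' D) := by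
      intro r
      rw [prob_compl_eq_one_sub (hD.preimage (measurable_dil _ _))]
    simp_rw [h1]
    have h2 := ENNReal.Tendsto.sub (tendsto_const_nhds (x := (1 : ENNReal))) h (Or.inl (by simp))
    simpa using h2
  have hex : ∀ n : ℕ, ∃ r : ℝ, 0 < r ∧ r < 1 / ((n : ℝ) + 1) ∧
      (volume[|U]) (dil x₀ r ⁻¹' D)ᶜ ≤ (2⁻¹ : ENNReal) ^ n := by
    intro n
    have h3 : ∀ᶠ r in 𝓝[>] (0 : ℝ), (volume[|U]) (dil x₀ r ⁻¹' D)ᶜ ≤ (2⁻¹ : ENNReal) ^ n := by
      have h4 : (0 : ENNReal) < (2⁻¹ : ENNReal) ^ n := by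
        apply ENNReal.pow_pos
        simp
      filter_upwards [hc.eventually (gt_mem_nhds h4)] with r hr using le_of_lt hr
    have h5 : (0 : ℝ) < 1 / ((n : ℝ) + 1) := by positivity
    obtain ⟨r, hr1, hr2⟩ := (h3.and (Ioo_mem_nhdsGT h5)).exists
    exact ⟨r, hr2.1, hr2.2, hr1⟩
  choose r hr0 hr1 hr2 using hex
  refine ⟨r, hr0, ?_, ?_⟩
  · refine squeeze_zero (fun n => (hr0 n).le) (fun n => (hr1 n).le) ?_
    exact tendsto_one_div_add_atTop_nhds_zero_nat
  · have hs : (∑' n, (volume[|U]) (dil x₀ (r n) ⁻¹' D)ᶜ) ≠ ⊤ := by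
      refine ne_top_of_le_ne_top ?_ (ENNReal.tsum_le_tsum hr2)
      rw [ENNReal.tsum_geometric]
      simp
    filter_upwards [ae_eventually_notMem hs] with u hu
    filter_upwards [hu] with n hn
    simpa using hn

end Pool.Agent.H21.Sylv
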