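import Pool.Agent.H21.Sylv.Limit

/-! The direction function and the contradiction. -/

open MeasureTheory ProbabilityTheory Filter Topology
open scoped Pointwise

namespace Pool.Agent.H21.Sylv

/-- probability that a line through `x₀` with direction `w` does not separate two points -/
noncomputable def hdir (μ : Measure Pt) (x₀ w : Pt) : ℝ :=
  (μ.prod μ).real {q : Pt × Pt | 0 < det2 w (q.1 - x₀) * det2 w (q.2 - x₀)}

/-- mass of an open half plane -/
noncomputable def adir (μ : Measure Pt) (x₀ w : Pt) : ℝ := μ.real {z : Pt | 0 < det2 w (z - x₀)}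

lemma det2_smul_left (t : ℝ) (w z : Pt) : det2 (t • w) z = t * det2 w z := by
  simp [det2]; ring

lemma det2_neg_left (w z : Pt) : det2 (-w) z = - det2 w z := by
  simp [det2]; ring

lemma hdir_smul (μ : Measure Pt) (x₀ w : Pt) {t : ℝ} (ht : t ≠ 0) :
    hdir μ x₀ (t • w) = hdir μ x₀ w := by
  unfold hdir
  congr 1
  ext q
  simp only [Set.mem_ofPred_eq, det2_smul_left]
  have : t * det2 w (q.1 - x₀) * (t * det2 w (q.2 - x₀)) =
    t ^ 2 * (det2 w (q.1 - x₀) * det2 w (q.2 - x₀)) := by ring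
  rw [this, mul_pos_iff_of_pos_left (by positivity)]

lemma tendsto_sign {X ι : Type*} [MeasurableSpace X] (M : Measure X) [IsFiniteMeasure M]
    (L : Filter ι) [L.IsCountablyGenerated] (f : ι → X → ℝ) (g : X → ℝ)
    (hf : ∀ i, Measurable (f i)) (hg : Measurable g)
    (hae : ∀ᵐ x ∂M, g x ≠ 0 ∧ Tendsto (fun i => f i x) L (𝓝 (g x))) :
    Tendsto (fun i => M.real {x | 0 < f i x}) L (𝓝 (M.real {x | 0 < g x})) := by
  simp only [measureReal_def]
  rw [ENNReal.tendsto_toReal_iff (fun n => measure_ne_top _ _) (measure_ne_top _ _)]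
  refine tendsto_measure_of_ae_tendsto_indicator (B := Set.univ) L
    (measurableSet_lt measurable_const hg)
    (fun i => measurableSet_lt measurable_const (hf i)) MeasurableSet.univ (measure_ne_top _ _)
    (Eventually.of_forall fun _ => Set.subset_univ _) ?_
  filter_upwards [hae] with x hx
  rcases lt_or_gt_of_ne hx.1 with h | h
  · filter_upwards [hx.2.eventually (gt_mem_nhds h)] with n hn
    exact ⟨fun h' => absurd h' (not_lt.mpr hn.le), fun h' => absurd h' (not_lt.mpr h.le)⟩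
  · filter_upwards [hx.2.eventually (lt_mem_nhds h)] with n hn
    exact ⟨fun _ => h, fun _ => hn⟩

lemma tendsto_hdir (μ : Measure Pt) [IsProbabilityMeasure μ] (hμ : μ ≪ volume) (x₀ : Pt) {w : Pt}
    (hw : w ≠ 0) : Tendsto (hdir μ x₀) (𝓝 w) (𝓝 (hdir μ x₀ w)) := by
  apply tendsto_sign (μ.prod μ) (𝓝 w)
    (fun (v : Pt) (q : Pt × Pt) => det2 v (q.1 - x₀) * det2 v (q.2 - x₀))
  · intro v
    apply Continuous.measurable
    fun_prop
  · apply Continuous.measurable
    fun_prop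
  · have h1 : ∀ᵐ q ∂(μ.prod μ), det2 w (q.1 - x₀) ≠ 0 :=
      Measure.quasiMeasurePreserving_fst.ae (line_null' hμ hw x₀)
    have h2 : ∀ᵐ q ∂(μ.prod μ), det2 w (q.2 - x₀) ≠ 0 :=
      Measure.quasiMeasurePreserving_snd.ae (line_null' hμ hw x₀)
    filter_upwards [h1, h2] with q h1 h2
    refine ⟨mul_ne_zero h1 h2, ?_⟩
    apply Continuous.tendsto
    fun_prop

lemma tendsto_adir (μ : Measure Pt) [IsProbabilityMeasure μ] (hμ : μ ≪ volume) (x₀ : Pt) {w : Pt}
    (hw : w ≠ 0) : Tendsto (adir μ x₀) (𝓝 w) (𝓝 (adir μ x₀ w)) := by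
  apply tendsto_sign μ (𝓝 w) (fun (v : Pt) (q : Pt) => det2 v (q - x₀))
  · intro v
    apply Continuous.measurable
    fun_prop
  · apply Continuous.measurable
    fun_prop
  · filter_upwards [line_null' hμ hw x₀] with q h1
    refine ⟨h1, ?_⟩
    apply Continuous.tendsto
    fun_prop

lemma measurable_hdir (μ : Measure Pt) [IsProbabilityMeasure μ] (x₀ : Pt) :
    Measurable (hdir μ x₀) := by
  have hm : MeasurableSet {p : Pt × (Pt × Pt) |
      0 < det2 p.1 (p.2.1 - x₀) * det2 p.1 (p.2.2 - x₀)} := by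
    apply IsOpen.measurableSet
    exact isOpen_lt continuous_const (by fun_prop)
  have := measurable_measure_prodMk_left (ν := μ.prod μ) hm
  exact this.ennreal_toReal

lemma hdir_nonneg (μ : Measure Pt) (x₀ w : Pt) : 0 ≤ hdir μ x₀ w := measureReal_nonneg

lemma hdir_le_one (μ : Measure Pt) [IsProbabilityMeasure μ] (x₀ w : Pt) : hdir μ x₀ w ≤ 1 :=
  measureReal_le_one

lemma adir_neg (μ : Measure Pt) [IsProbabilityMeasure μ] (hμ : μ ≪ volume) (x₀ : Pt) {w : Pt}
    (hw : w ≠ 0) : μ.real {z : Pt | det2 w (z - x₀) < 0} = 1 - adir μ x₀ w := by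
  have hm : MeasurableSet {z : Pt | 0 < det2 w (z - x₀)} :=
    (isOpen_lt continuous_const (by fun_prop)).measurableSet
  rw [adir, ← probReal_compl_eq_one_sub hm]
  apply measureReal_congr
  filter_upwards [line_null' hμ hw x₀] with z hz
  apply propext
  change det2 w (z - x₀) < 0 ↔ ¬ (0 < det2 w (z - x₀))
  rw [not_lt]
  exact ⟨le_of_lt, fun h => lt_of_le_of_ne h hz⟩

lemma adir_neg' (μ : Measure Pt) [IsProbabilityMeasure μ] (hμ : μ ≪ volume) (x₀ : Pt) {w : Pt}
    (hw : w ≠ 0) : adir μ x₀ (-w) = 1 - adir μ x₀ w := by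
  rw [← adir_neg μ hμ x₀ hw, adir]
  congr 1
  ext z
  simp [det2_neg_left]

lemma hdir_eq (μ : Measure Pt) [IsProbabilityMeasure μ] (hμ : μ ≪ volume) (x₀ : Pt) {w : Pt}
    (hw : w ≠ 0) : hdir μ x₀ w = adir μ x₀ w ^ 2 + (1 - adir μ x₀ w) ^ 2 := by
  have hm1 : MeasurableSet {z : Pt | 0 < det2 w (z - x₀)} :=
    (isOpen_lt continuous_const (by fun_prop)).measurableSet
  have hm2 : MeasurableSet {z : Pt | det2 w (z - x₀) < 0} :=
    (isOpen_lt (by fun_prop) continuous_const).measurableSet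
  have h1 : {q : Pt × Pt | 0 < det2 w (q.1 - x₀) * det2 w (q.2 - x₀)} =
      ({z : Pt | 0 < det2 w (z - x₀)} ×ˢ {z : Pt | 0 < det2 w (z - x₀)}) ∪
      ({z : Pt | det2 w (z - x₀) < 0} ×ˢ {z : Pt | det2 w (z - x₀) < 0}) := by
    ext q
    simp only [Set.mem_ofPred_eq, Set.mem_union, Set.mem_prod, mul_pos_iff]
  rw [hdir, h1, measureReal_union _ (hm2.prod hm2), measureReal_prod_prod, measureReal_prod_prod,
    adir_neg μ hμ x₀ hw, ← adir]
  · ring
  · rw [Set.disjoint_left]
    rintro q ⟨h1, _⟩ ⟨h2, _⟩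
    simp only [Set.mem_ofPred_eq] at h1 h2
    linarith

/-- a halving direction exists -/
lemma exists_halving (μ : Measure Pt) [IsProbabilityMeasure μ] (hμ : μ ≪ volume) (x₀ : Pt) :
    ∃ w : Pt, w ≠ 0 ∧ adir μ x₀ w = 1 / 2 := by
  set w : ℝ → Pt := fun t => !₂[Real.cos t, Real.sin t] with hw
  have hwc : Continuous w := by
    rw [hw]
    fun_prop
  have hw0 : ∀ t, w t ≠ 0 := by
    intro t h
    have h0 : w t 0 = 0 := by rw [h]; rfl
    have h1 : w t 1 = 0 := by rw [h]; rfl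
    simp [hw] at h0 h1
    have := Real.cos_sq_add_sin_sq t
    rw [h0, h1] at this
    norm_num at this
  have hc : Continuous (fun t => adir μ x₀ (w t)) := by
    rw [continuous_iff_continuousAt]
    intro t
    exact (tendsto_adir μ hμ x₀ (hw0 t)).comp hwc.continuousAt
  have hpi : w Real.pi = - w 0 := by
    ext i
    fin_cases i <;> simp [hw]
  have h1 : adir μ x₀ (w Real.pi) = 1 - adir μ x₀ (w 0) := by
    rw [hpi, adir_neg' μ hμ x₀ (hw0 0)]
  have : (1 / 2 : ℝ) ∈ Set.range (fun t => adir μ x₀ (w t)) := by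
    rcases le_total (adir μ x₀ (w 0)) (1 / 2) with h | h
    · exact mem_range_of_exists_le_of_exists_ge hc ⟨0, h⟩ ⟨Real.pi, by simp only [h1]; linarith⟩
    · exact mem_range_of_exists_le_of_exists_ge hc ⟨Real.pi, by simp only [h1]; linarith⟩ ⟨0, h⟩
  obtain ⟨t, ht⟩ := this
  exact ⟨w t, hw0 t, ht⟩

end Pool.Agent.H21.Sylv
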