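import Pool.Agent.H21.Sylv.Direction

/-! Conclusion: the infimum is not attained. -/

open MeasureTheory ProbabilityTheory Filter Topology
open scoped Pointwise

namespace Pool.Agent.H21.Sylv

lemma map_prod4 (a b c d : Measure Pt) [IsProbabilityMeasure a] [IsProbabilityMeasure b]
    [IsProbabilityMeasure c] [IsProbabilityMeasure d] :
    MeasurePreserving (fun p : (Pt × Pt) × (Pt × Pt) =>
      (![p.1.1, p.1.2, p.2.1, p.2.2] : Fin 4 → Pt))
      ((a.prod b).prod (c.prod d)) (Measure.pi ![a, b, c, d]) := by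
  have i4 := prob4 a b c d
  have hmeas : Measurable (fun p : (Pt × Pt) × (Pt × Pt) =>
      (![p.1.1, p.1.2, p.2.1, p.2.2] : Fin 4 → Pt)) := by
    rw [measurable_pi_iff]
    intro i
    fin_cases i
    · exact measurable_fst.fst
    · exact measurable_fst.snd
    · exact measurable_snd.fst
    · exact measurable_snd.snd
  refine ⟨hmeas, ?_⟩
  symm
  apply Measure.pi_eq
  intro s hs
  rw [Measure.map_apply hmeas (MeasurableSet.univ_pi hs)]
  have : (fun p : (Pt × Pt) × (Pt × Pt) =>
      (![p.1.1, p.1.2, p.2.1, p.2.2] : Fin 4 → Pt)) ⁻¹' (Set.univ.pi s)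
      = (s 0 ×ˢ s 1) ×ˢ (s 2 ×ˢ s 3) := by
    ext p
    simp [Set.mem_pi, Fin.forall_fin_succ, and_assoc]
  rw [this, Measure.prod_prod, Measure.prod_prod, Measure.prod_prod, Fin.prod_univ_four]
  simp only [Matrix.cons_val]
  ring

/-- `H` as an average of the direction function -/
lemma H_eq_integral (μ α β : Measure Pt) [IsProbabilityMeasure μ] [IsProbabilityMeasure α]
    [IsProbabilityMeasure β] (x₀ : Pt) :
    H μ x₀ α β = ∫ p, hdir μ x₀ (p.2 - p.1) ∂(α.prod β) := by
  have hmp := map_prod4 α β μ μ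
  have hL := measurableSet_Lset x₀
  rw [H, measureReal_def, ← hmp.measure_preimage hL.nullMeasurableSet, ← measureReal_def]
  have hm : MeasurableSet ((fun p : (Pt × Pt) × (Pt × Pt) =>
      (![p.1.1, p.1.2, p.2.1, p.2.2] : Fin 4 → Pt)) ⁻¹' Lset x₀) := hL.preimage hmp.measurable
  rw [← integral_indicator_one hm, integral_prod]
  · apply integral_congr_ae
    refine Eventually.of_forall fun p => ?_
    simp only []
    rw [hdir]
    have hm2 : MeasurableSet {q : Pt × Pt | 0 < det2 (p.2 - p.1) (q.1 - x₀) *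
        det2 (p.2 - p.1) (q.2 - x₀)} :=
      (isOpen_lt continuous_const (by fun_prop)).measurableSet
    rw [← integral_indicator_one hm2]
    rfl
  · exact (integrable_const 1).indicator hm

/-- normalised volume on a set, transported by a dilation -/
lemma cond_vol_dset {x₀ : Pt} {r : ℝ} (hr : r ≠ 0) {S : Set Pt} (hS : MeasurableSet S) :
    volume[|dset x₀ r S] = Measure.map (dil x₀ r) (volume[|S]) := by
  ext E hE
  have hA : MeasurableSet (dset x₀ r S) := measurableSet_dset hS
  rw [Measure.map_apply (measurable_dil _ _) hE, cond_apply hA, cond_apply hS]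
  have h1 : volume S = kc r * volume (dset x₀ r S) := by
    rw [← vol_dil_preimage x₀ hr, dil_preimage_dset hr]
  have h2 : volume (S ∩ dil x₀ r ⁻¹' E) = kc r * volume (dset x₀ r S ∩ E) := by
    rw [← vol_dil_preimage x₀ hr, Set.preimage_inter, dil_preimage_dset hr]
  rw [h1, h2, ENNReal.mul_inv (Or.inl (kc_ne_zero hr)) (Or.inl kc_ne_top)]
  have h : (kc r)⁻¹ * kc r = 1 := ENNReal.inv_mul_cancel (kc_ne_zero hr) kc_ne_top
  calc (volume (dset x₀ r S))⁻¹ * volume (dset x₀ r S ∩ E)
      = ((kc r)⁻¹ * kc r) * ((volume (dset x₀ r S))⁻¹ * volume (dset x₀ r S ∩ E)) := by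
        rw [h, one_mul]
    _ = _ := by ring

lemma vol_dset {x₀ : Pt} {r : ℝ} (hr : r ≠ 0) (S : Set Pt) :
    volume S = kc r * volume (dset x₀ r S) := by
  rw [← vol_dil_preimage x₀ hr, dil_preimage_dset hr]

/-- `H` of dilated copies of one measure. -/
lemma H_dil (μ α : Measure Pt) [IsProbabilityMeasure μ] [IsProbabilityMeasure α] (x₀ c c' : Pt)
    (r : ℝ) :
    H μ x₀ (Measure.map (dil c r) α) (Measure.map (dil c' r) α) =
      ∫ p, hdir μ x₀ ((c' - c) + r • (p.2 - p.1)) ∂(α.prod α) := by
  have i1 : IsProbabilityMeasure (Measure.map (dil c r) α) :=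
    Measure.isProbabilityMeasure_map (measurable_dil _ _).aemeasurable
  have i2 : IsProbabilityMeasure (Measure.map (dil c' r) α) :=
    Measure.isProbabilityMeasure_map (measurable_dil _ _).aemeasurable
  rw [H_eq_integral, Measure.map_prod_map α α (measurable_dil c r) (measurable_dil c' r),
    integral_map]
  · apply integral_congr_ae
    refine Eventually.of_forall fun p => ?_
    simp only [Prod.map_fst, Prod.map_snd, dil]
    congr 1
    rw [smul_sub]
    abel
  · exact ((measurable_dil c r).prodMap (measurable_dil c' r)).aemeasurable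
  · exact ((measurable_hdir μ x₀).comp (measurable_snd.sub measurable_fst)).aestronglyMeasurable

lemma integrable_hdir (μ : Measure Pt) [IsProbabilityMeasure μ] (x₀ : Pt) (M : Measure (Pt × Pt))
    [IsFiniteMeasure M] (f : Pt × Pt → Pt) (hf : Measurable f) :
    Integrable (fun p => hdir μ x₀ (f p)) M := by
  refine Integrable.of_bound (C := 1)
    ((measurable_hdir μ x₀).comp hf).aestronglyMeasurable (Eventually.of_forall fun p => ?_)
  rw [Real.norm_eq_abs, abs_of_nonneg (hdir_nonneg _ _ _)]
  exact hdir_le_one _ _ _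

/-- At a density point of a minimiser, every direction value is at most the average over
pairs of points of the reference set. -/
lemma hdir_le_avg {D : Set Pt} (hD : MeasurableSet D) (hD0 : volume D ≠ 0) (hDt : volume D ≠ ⊤)
    (hmin : ∀ ν : Measure Pt, IsProbabilityMeasure ν → ν ≪ volume → F (volume[|D]) ≤ F ν)
    {x₀ : Pt}
    (hx : Tendsto (fun r => volume (D ∩ Metric.closedBall x₀ r) /
      volume (Metric.closedBall x₀ r)) (𝓝[>] 0) (𝓝 1)) {S : Set Pt} (hS : MeasurableSet S)
    (hS0 : volume S ≠ 0) (hSt : volume S ≠ ⊤) {c : Pt} (hc : c ≠ 0) :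
    hdir (volume[|D]) x₀ c ≤
      ∫ p, hdir (volume[|D]) x₀ (p.2 - p.1) ∂((volume[|S]).prod (volume[|S])) := by
  have iS : IsProbabilityMeasure (volume[|S]) := cond_isProbabilityMeasure_of_finite hS0 hSt
  have iD : IsProbabilityMeasure (volume[|D]) := cond_isProbabilityMeasure_of_finite hD0 hDt
  have acD : volume[|D] ≪ volume := cond_absolutelyContinuous
  set μ := volume[|D] with hμ
  set α := volume[|S] with hα
  set g : ℝ := ∫ p, hdir μ x₀ (p.2 - p.1) ∂(α.prod α) with hg
  -- the inequality for every small r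
  have key : ∀ r : ℝ, 0 < r →
      (∫ p, hdir μ x₀ (c + r • (p.2 - p.1)) ∂(α.prod α)) +
      (∫ p, hdir μ x₀ (-c + r • (p.2 - p.1)) ∂(α.prod α)) ≤ 2 * g := by
    intro r hr
    have hr0 : r ≠ 0 := hr.ne'
    have hn : ∀ y : Pt, volume (dset y r S) ≠ 0 := by
      intro y h0
      apply hS0
      rw [vol_dset (x₀ := y) hr0 S, h0, mul_zero]
    have ht : ∀ y : Pt, volume (dset y r S) ≠ ⊤ := by
      intro y h0
      apply hSt
      rw [vol_dset (x₀ := y) hr0 S, h0, ENNReal.mul_top (kc_ne_zero hr0)]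
    have h := blowup hD hD0 hDt hmin hx (S := dset 0 r S) (T := dset c r S)
      (measurableSet_dset hS) (measurableSet_dset hS) (hn 0) (ht 0) (hn c) (ht c)
    rw [cond_vol_dset hr0 hS, cond_vol_dset hr0 hS, ← hμ, ← hα, H_dil, H_dil, H_dil, H_dil] at h
    simp only [sub_zero, zero_sub, sub_self, zero_add] at h
    have h2 : ∫ p, hdir μ x₀ (r • (p.2 - p.1)) ∂(α.prod α) = g := by
      rw [hg]
      apply integral_congr_ae
      refine Eventually.of_forall fun p => ?_
      exact hdir_smul μ x₀ _ hr0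
    rw [h2] at h
    linarith
  -- the limits
  have lim : ∀ c' : Pt, c' ≠ 0 → Tendsto (fun r : ℝ =>
      ∫ p, hdir μ x₀ (c' + r • (p.2 - p.1)) ∂(α.prod α)) (𝓝[>] 0) (𝓝 (hdir μ x₀ c')) := by
    intro c' hc'
    have h1 : hdir μ x₀ c' = ∫ _p : Pt × Pt, hdir μ x₀ c' ∂(α.prod α) := by simp
    rw [h1]
    apply tendsto_integral_filter_of_dominated_convergence (fun _ => (1 : ℝ))
    · refine Eventually.of_forall fun r => ?_
      apply Measurable.aestronglyMeasurable
      exact (measurable_hdir μ x₀).comp (by fun_prop)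
    · refine Eventually.of_forall fun r => Eventually.of_forall fun p => ?_
      rw [Real.norm_eq_abs, abs_of_nonneg (hdir_nonneg _ _ _)]
      exact hdir_le_one _ _ _
    · exact integrable_const 1
    · refine Eventually.of_forall fun p => ?_
      have h2 : Tendsto (fun r : ℝ => c' + r • (p.2 - p.1)) (𝓝[>] 0) (𝓝 c') := by
        have h3 : Tendsto (fun r : ℝ => c' + r • (p.2 - p.1)) (𝓝 0)
            (𝓝 (c' + (0 : ℝ) • (p.2 - p.1))) := by
          apply Continuous.tendsto
          fun_prop
        rw [zero_smul, add_zero] at h3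
        exact h3.mono_left nhdsWithin_le_nhds
      exact (tendsto_hdir μ acD x₀ hc').comp h2
  have hlim := (lim c hc).add (lim (-c) (neg_ne_zero.mpr hc))
  have hle : hdir μ x₀ c + hdir μ x₀ (-c) ≤ 2 * g := by
    refine le_of_tendsto hlim ?_
    filter_upwards [self_mem_nhdsWithin] with r hr
    exact key r hr
  have hneg : hdir μ x₀ (-c) = hdir μ x₀ c := by
    have := hdir_smul μ x₀ c (t := -1) (by norm_num)
    rwa [neg_one_smul] at this
  rw [hneg] at hle
  linarith

/-- Hence the direction function is constant. -/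
lemma hdir_const {D : Set Pt} (hD : MeasurableSet D) (hD0 : volume D ≠ 0) (hDt : volume D ≠ ⊤)
    (hmin : ∀ ν : Measure Pt, IsProbabilityMeasure ν → ν ≪ volume → F (volume[|D]) ≤ F ν)
    {x₀ : Pt}
    (hx : Tendsto (fun r => volume (D ∩ Metric.closedBall x₀ r) /
      volume (Metric.closedBall x₀ r)) (𝓝[>] 0) (𝓝 1)) {c c' : Pt} (hc : c ≠ 0) (hc' : c' ≠ 0) :
    hdir (volume[|D]) x₀ c' ≤ hdir (volume[|D]) x₀ c := by
  by_contra hcon
  rw [not_le] at hcon
  have iD : IsProbabilityMeasure (volume[|D]) := cond_isProbabilityMeasure_of_finite hD0 hDt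
  have acD : volume[|D] ≪ volume := cond_absolutelyContinuous
  set S : Set Pt := Metric.closedBall 0 1 with hSdef
  have hS : MeasurableSet S := measurableSet_closedBall
  have hS0 : volume S ≠ 0 := (Metric.measure_closedBall_pos volume _ one_pos).ne'
  have hSt : volume S ≠ ⊤ := measure_closedBall_lt_top.ne
  have iS : IsProbabilityMeasure (volume[|S]) := cond_isProbabilityMeasure_of_finite hS0 hSt
  have acS : volume[|S] ≪ volume := cond_absolutelyContinuous
  set μ := volume[|D] with hμ
  set α := volume[|S] with hα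
  set g : ℝ := ∫ p, hdir μ x₀ (p.2 - p.1) ∂(α.prod α) with hg
  have hle : ∀ w : Pt, w ≠ 0 → hdir μ x₀ w ≤ g := fun w hw =>
    hdir_le_avg hD hD0 hDt hmin hx hS hS0 hSt hw
  -- almost everywhere equality
  have hint : Integrable (fun p : Pt × Pt => hdir μ x₀ (p.2 - p.1)) (α.prod α) :=
    integrable_hdir μ x₀ _ _ (by fun_prop)
  have hzero : ∫ p, (g - hdir μ x₀ (p.2 - p.1)) ∂(α.prod α) = 0 := by
    rw [integral_sub (integrable_const _) hint, ← hg]
    simp
  have hnn : 0 ≤ᵐ[α.prod α] fun p : Pt × Pt => g - hdir μ x₀ (p.2 - p.1) := by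
    filter_upwards [ae_ne (μ := α) acS] with p hp
    have := hle (p.2 - p.1) (sub_ne_zero.mpr (Ne.symm hp))
    simp only [Pi.zero_apply]
    linarith
  have hae := (integral_eq_zero_iff_of_nonneg_ae hnn ((integrable_const _).sub' hint)).mp hzero
  -- an open set where the value is smaller
  have hclt : hdir μ x₀ c < g := lt_of_lt_of_le hcon (hle c' hc')
  have hnorm : 0 < ‖c‖ := norm_pos_iff.mpr hc
  set w : Pt := (1 / (2 * ‖c‖)) • c with hw
  have hwnorm : ‖w‖ = 1 / 2 := by
    rw [hw, norm_smul, Real.norm_eq_abs, abs_of_pos (by positivity)]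
    field_simp
  have hw0 : w ≠ 0 := by
    rw [← norm_pos_iff, hwnorm]; norm_num
  have hwval : hdir μ x₀ w < g := by
    rw [hw, hdir_smul μ x₀ c (by positivity)]
    exact hclt
  have hev : ∀ᶠ v in 𝓝 w, hdir μ x₀ v < g :=
    (tendsto_hdir μ acD x₀ hw0).eventually (gt_mem_nhds hwval)
  obtain ⟨δ, hδ, hball⟩ := Metric.eventually_nhds_iff_ball.mp hev
  set δ' : ℝ := min (δ / 2) (1 / 2) with hδ'
  have hδ'0 : 0 < δ' := by rw [hδ']; positivity
  have hball_pos : ∀ y : Pt, ‖y‖ ≤ 1 / 2 → α (Metric.ball y δ') ≠ 0 := by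
    intro y hy
    rw [hα, cond_apply hS]
    have hsub : Metric.ball y δ' ⊆ S := by
      intro z hz
      rw [hSdef, Metric.mem_closedBall, dist_zero_right]
      rw [Metric.mem_ball, dist_eq_norm] at hz
      have h1 : ‖z‖ ≤ ‖z - y‖ + ‖y‖ := by
        have := norm_add_le (z - y) y
        simpa using this
      have h2 : δ' ≤ 1 / 2 := min_le_right _ _
      linarith
    rw [Set.inter_eq_right.mpr hsub]
    exact mul_ne_zero (ENNReal.inv_ne_zero.mpr hSt) (Metric.measure_ball_pos volume _ hδ'0).ne'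
  have hE : (α.prod α) (Metric.ball 0 δ' ×ˢ Metric.ball w δ') ≠ 0 := by
    rw [Measure.prod_prod]
    exact mul_ne_zero (hball_pos 0 (by simp)) (hball_pos w hwnorm.le)
  have hcontra : (α.prod α) (Metric.ball 0 δ' ×ˢ Metric.ball w δ') = 0 := by
    refine measure_mono_null ?_ (ae_iff.mp hae)
    rintro ⟨u, v⟩ ⟨hu, hv⟩
    simp only [Metric.mem_ball, dist_zero_right] at hu hv
    have hlt : hdir μ x₀ (v - u) < g := by
      apply hball
      rw [Metric.mem_ball, dist_eq_norm]
      rw [dist_eq_norm] at hv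
      have h1 : ‖v - u - w‖ ≤ ‖v - w‖ + ‖u‖ := by
        have : v - u - w = (v - w) - u := by abel
        rw [this]
        exact norm_sub_le _ _
      have h2 : δ' ≤ δ / 2 := min_le_left _ _
      linarith
    intro h3
    simp only [Pi.zero_apply] at h3
    linarith
  exact hE hcontra

end Pool.Agent.H21.Sylv
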