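import Mathlib

/-! Elementary planar geometry of four points: the sign of the product of the four
orientations decides convex position. -/

namespace Pool.Agent.H21.Sylv

/-- The Euclidean plane. -/
abbrev Pt := EuclideanSpace ℝ (Fin 2)

/-- The determinant of two plane vectors. -/
def det2 (u v : Pt) : ℝ := u 0 * v 1 - u 1 * v 0

/-- Twice the signed area of the triangle `x y z`. -/
def ori (x y z : Pt) : ℝ := det2 (y - x) (z - x)

/-- The product of the four orientations of the sub-triangles of a quadruple. -/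
def prd (x y z w : Pt) : ℝ := ori y z w * ori x z w * ori x y w * ori x y z

/-- The product for an indexed quadruple. -/
def prd4 (x : Fin 4 → Pt) : ℝ := prd (x 0) (x 1) (x 2) (x 3)

lemma ori_eq (x y z : Pt) :
    ori x y z = (y 0 - x 0) * (z 1 - x 1) - (y 1 - x 1) * (z 0 - x 0) := by
  simp [ori, det2]

lemma prd_swap01 (x y z w : Pt) : prd y x z w = prd x y z w := by
  simp only [prd, ori_eq]; ring

lemma prd_swap12 (x y z w : Pt) : prd x z y w = prd x y z w := by
  simp only [prd, ori_eq]; ring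

lemma prd_swap23 (x y z w : Pt) : prd x y w z = prd x y z w := by
  simp only [prd, ori_eq]; ring

/-- one point in a triangle gives a nonpositive product -/
lemma prd_nonpos_of_mem {x y z w : Pt} (h : x ∈ convexHull ℝ {y, z, w}) :
    prd x y z w ≤ 0 := by
  rw [convexHull_insert (by simp), mem_convexJoin] at h
  obtain ⟨a, ha, b, hb, hx⟩ := h
  rw [Set.mem_singleton_iff] at ha
  subst ha
  rw [convexHull_pair] at hb
  obtain ⟨c, d, hc, hd, hcd, rfl⟩ := hb
  obtain ⟨e, f, he, hf, hef, rfl⟩ := hx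
  have hc' : c = 1 - d := by linarith
  have he' : e = 1 - f := by linarith
  have key : prd (e • a + f • (c • z + d • w)) a z w
      = - (e * (f * c) * (f * d)) * (ori a z w) ^ 4 := by
    subst hc' he'
    simp only [prd, ori_eq, PiLp.add_apply, PiLp.smul_apply, smul_eq_mul]
    ring
  rw [key]
  have : 0 ≤ e * (f * c) * (f * d) := by positivity
  have h4 : 0 ≤ (ori a z w) ^ 4 := by positivity
  nlinarith

lemma mem_hull_three {x y z w : Pt} {a b c : ℝ} (ha : 0 ≤ a) (hb : 0 ≤ b) (hc : 0 ≤ c)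
    (habc : a + b + c = 1) (hx : x = a • y + b • z + c • w) :
    x ∈ convexHull ℝ {y, z, w} := by
  have h := (convex_convexHull ℝ ({y, z, w} : Set Pt)).sum_mem (t := Finset.univ)
    (w := ![a, b, c]) (z := ![y, z, w])
    (by intro i _; fin_cases i <;> simp [ha, hb, hc])
    (by simp [Fin.sum_univ_three, habc])
    (by
      intro i _
      apply subset_convexHull
      fin_cases i <;> simp)
  simp only [Fin.sum_univ_three] at h
  simpa [hx] using h

lemma ori_relation0 (x y z w : Pt) :
    ori y z w * x 0 - ori x z w * y 0 + ori x y w * z 0 - ori x y z * w 0 = 0 := by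
  simp only [ori_eq]; ring

lemma ori_relation1 (x y z w : Pt) :
    ori y z w * x 1 - ori x z w * y 1 + ori x y w * z 1 - ori x y z * w 1 = 0 := by
  simp only [ori_eq]; ring

lemma ori_relation (x y z w : Pt) :
    ori y z w - ori x z w + ori x y w - ori x y z = 0 := by
  simp only [ori_eq]; ring

/-- An affine relation with one sign opposite to the three others puts a point in the
triangle of the others. -/
lemma mem_hull_of_rel {x y z w : Pt} {c0 c1 c2 c3 : ℝ} (h01 : c0 * c1 < 0) (h02 : c0 * c2 < 0)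
    (h03 : c0 * c3 < 0) (hs : c0 + c1 + c2 + c3 = 0)
    (h0 : c0 * x 0 + c1 * y 0 + c2 * z 0 + c3 * w 0 = 0)
    (h1 : c0 * x 1 + c1 * y 1 + c2 * z 1 + c3 * w 1 = 0) :
    x ∈ convexHull ℝ {y, z, w} := by
  have hc0 : c0 ≠ 0 := by rintro rfl; simp at h01
  have hpos : 0 < c0 ^ 2 := by positivity
  refine mem_hull_three (a := -(c0 * c1) / c0 ^ 2) (b := -(c0 * c2) / c0 ^ 2)
    (c := -(c0 * c3) / c0 ^ 2) (by apply div_nonneg <;> linarith)
    (by apply div_nonneg <;> linarith) (by apply div_nonneg <;> linarith) ?_ ?_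
  · field_simp
    linear_combination (-1) * hs
  · ext i
    fin_cases i
    · simp only [Fin.zero_eta, PiLp.add_apply, PiLp.smul_apply, smul_eq_mul]
      field_simp
      linear_combination h0
    · simp only [Fin.mk_one, PiLp.add_apply, PiLp.smul_apply, smul_eq_mul]
      field_simp
      linear_combination h1

lemma image_compl0 (x : Fin 4 → Pt) : x '' {0}ᶜ = {x 1, x 2, x 3} := by
  ext p
  simp only [Set.mem_image, Set.mem_compl_iff, Set.mem_singleton_iff, Set.mem_insert_iff]
  constructor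
  · rintro ⟨i, hi, rfl⟩
    fin_cases i <;> simp_all
  · rintro (rfl | rfl | rfl)
    · exact ⟨1, by decide, rfl⟩
    · exact ⟨2, by decide, rfl⟩
    · exact ⟨3, by decide, rfl⟩

lemma image_compl1 (x : Fin 4 → Pt) : x '' {1}ᶜ = {x 0, x 2, x 3} := by
  ext p
  simp only [Set.mem_image, Set.mem_compl_iff, Set.mem_singleton_iff, Set.mem_insert_iff]
  constructor
  · rintro ⟨i, hi, rfl⟩
    fin_cases i <;> simp_all
  · rintro (rfl | rfl | rfl)
    · exact ⟨0, by decide, rfl⟩
    · exact ⟨2, by decide, rfl⟩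
    · exact ⟨3, by decide, rfl⟩

lemma image_compl2 (x : Fin 4 → Pt) : x '' {2}ᶜ = {x 0, x 1, x 3} := by
  ext p
  simp only [Set.mem_image, Set.mem_compl_iff, Set.mem_singleton_iff, Set.mem_insert_iff]
  constructor
  · rintro ⟨i, hi, rfl⟩
    fin_cases i <;> simp_all
  · rintro (rfl | rfl | rfl)
    · exact ⟨0, by decide, rfl⟩
    · exact ⟨1, by decide, rfl⟩
    · exact ⟨3, by decide, rfl⟩

lemma image_compl3 (x : Fin 4 → Pt) : x '' {3}ᶜ = {x 0, x 1, x 2} := by
  ext p
  simp only [Set.mem_image, Set.mem_compl_iff, Set.mem_singleton_iff, Set.mem_insert_iff]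
  constructor
  · rintro ⟨i, hi, rfl⟩
    fin_cases i <;> simp_all
  · rintro (rfl | rfl | rfl)
    · exact ⟨0, by decide, rfl⟩
    · exact ⟨1, by decide, rfl⟩
    · exact ⟨2, by decide, rfl⟩

/-- If one of the points lies in the triangle of the others, the product is nonpositive. -/
lemma prd4_nonpos {x : Fin 4 → Pt} (h : ∃ i, x i ∈ convexHull ℝ (x '' {i}ᶜ)) : prd4 x ≤ 0 := by
  obtain ⟨i, hi⟩ := h
  fin_cases i
  · rw [show ((⟨0, by decide⟩ : Fin 4)) = 0 from rfl, image_compl0] at hi
    exact prd_nonpos_of_mem hi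
  · rw [show ((⟨1, by decide⟩ : Fin 4)) = 1 from rfl, image_compl1] at hi
    have := prd_nonpos_of_mem hi
    rwa [prd_swap01] at this
  · rw [show ((⟨2, by decide⟩ : Fin 4)) = 2 from rfl, image_compl2] at hi
    have := prd_nonpos_of_mem hi
    rwa [prd_swap01, prd_swap12] at this
  · rw [show ((⟨3, by decide⟩ : Fin 4)) = 3 from rfl, image_compl3] at hi
    have := prd_nonpos_of_mem hi
    rwa [prd_swap01, prd_swap12, prd_swap23] at this

lemma sign_cases {a b c d : ℝ} (h : a * b * c * d < 0) :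
    (a * b < 0 ∧ a * c < 0 ∧ a * d < 0) ∨ (b * a < 0 ∧ b * c < 0 ∧ b * d < 0) ∨
    (c * a < 0 ∧ c * b < 0 ∧ c * d < 0) ∨ (d * a < 0 ∧ d * b < 0 ∧ d * c < 0) := by
  have ha : a ≠ 0 := by rintro rfl; simp at h
  have hb : b ≠ 0 := by rintro rfl; simp at h
  have hc : c ≠ 0 := by rintro rfl; simp at h
  have hd : d ≠ 0 := by rintro rfl; simp at h
  rcases lt_or_gt_of_ne ha with ha | ha <;> rcases lt_or_gt_of_ne hb with hb | hb <;>
    rcases lt_or_gt_of_ne hc with hc | hc <;> rcases lt_or_gt_of_ne hd with hd | hd <;>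
    simp_all [mul_neg_iff, mul_pos_iff, not_lt_of_gt]

/-- If the product is negative, one of the points lies in the triangle of the others. -/
lemma mem_of_prd4_neg {x : Fin 4 → Pt} (h : prd4 x < 0) :
    ∃ i, x i ∈ convexHull ℝ (x '' {i}ᶜ) := by
  set c0 := ori (x 1) (x 2) (x 3) with hc0
  set c1 := - ori (x 0) (x 2) (x 3) with hc1
  set c2 := ori (x 0) (x 1) (x 3) with hc2
  set c3 := - ori (x 0) (x 1) (x 2) with hc3
  have hprod : c0 * c1 * c2 * c3 < 0 := by
    have : c0 * c1 * c2 * c3 = prd4 x := by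
      rw [hc0, hc1, hc2, hc3, prd4, prd]; ring
    rw [this]; exact h
  have hs : c0 + c1 + c2 + c3 = 0 := by
    have := ori_relation (x 0) (x 1) (x 2) (x 3)
    rw [hc0, hc1, hc2, hc3]; linarith
  have h0 : c0 * x 0 0 + c1 * x 1 0 + c2 * x 2 0 + c3 * x 3 0 = 0 := by
    have := ori_relation0 (x 0) (x 1) (x 2) (x 3)
    rw [hc0, hc1, hc2, hc3]; linarith
  have h1 : c0 * x 0 1 + c1 * x 1 1 + c2 * x 2 1 + c3 * x 3 1 = 0 := by
    have := ori_relation1 (x 0) (x 1) (x 2) (x 3)
    rw [hc0, hc1, hc2, hc3]; linarith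
  rcases sign_cases hprod with ⟨ha, hb, hc⟩ | ⟨ha, hb, hc⟩ | ⟨ha, hb, hc⟩ | ⟨ha, hb, hc⟩
  · refine ⟨0, ?_⟩
    rw [image_compl0]
    exact mem_hull_of_rel ha hb hc (by linarith) (by linarith) (by linarith)
  · refine ⟨1, ?_⟩
    rw [image_compl1]
    exact mem_hull_of_rel ha hb hc (by linarith) (by linarith) (by linarith)
  · refine ⟨2, ?_⟩
    rw [image_compl2]
    exact mem_hull_of_rel ha hb hc (by linarith) (by linarith) (by linarith)
  · refine ⟨3, ?_⟩
    rw [image_compl3]
    exact mem_hull_of_rel ha hb hc (by linarith) (by linarith) (by linarith)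

end Pool.Agent.H21.Sylv
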