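import Pool.Agent.H21.Sylv.Blowup

/-! The limit of the blown-up second variation. -/

open MeasureTheory ProbabilityTheory Filter Topology
open scoped Pointwise

namespace Pool.Agent.H21.Sylv

/-- the limit event -/
def Lset (x₀ : Pt) : Set (Fin 4 → Pt) :=
  {x | 0 < det2 (x 1 - x 0) (x 2 - x₀) * det2 (x 1 - x 0) (x 3 - x₀)}

/-- the limit functional -/
noncomputable def H (μ : Measure Pt) (x₀ : Pt) (α β : Measure Pt) : ℝ :=
  (Measure.pi ![α, β, μ, μ]).real (Lset x₀)

lemma measurableSet_Lset (x₀ : Pt) : MeasurableSet (Lset x₀) := by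
  apply IsOpen.measurableSet
  exact isOpen_lt continuous_const (by fun_prop)

lemma ae_three {ι : Type*} [Fintype ι] (m : ι → Measure Pt) [∀ i, IsProbabilityMeasure (m i)]
    {i j k : ι} (hij : i ≠ j) (hik : i ≠ k) (hjk : j ≠ k) (P : Pt → Pt → Pt → Prop)
    (hm : MeasurableSet {x : Fin 3 → Pt | P (x 0) (x 1) (x 2)})
    (hP : ∀ᵐ x ∂(((m i).prod (m j)).prod (m k)), P x.1.1 x.1.2 x.2) :
    ∀ᵐ x ∂(Measure.pi m), P (x i) (x j) (x k) := by
  have hinj : Function.Injective ![i, j, k] := by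
    intro a b hab
    fin_cases a <;> fin_cases b <;> simp_all
  have hmp := mp_precomp m ![i, j, k] hinj
  suffices hs : ∀ᵐ x ∂(Measure.pi (fun k' => m (![i, j, k] k'))), P (x 0) (x 1) (x 2) by
    exact hmp.quasiMeasurePreserving.ae hs
  have hmp3 := map_prod3 (fun k' => m (![i, j, k] k'))
  rw [← hmp3.map_eq, ae_map_iff hmp3.measurable.aemeasurable hm]
  exact hP

lemma ae_two {ι : Type*} [Fintype ι] (m : ι → Measure Pt) [∀ i, IsProbabilityMeasure (m i)]
    {i j : ι} (hij : i ≠ j) (P : Pt → Pt → Prop)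
    (hm : MeasurableSet {x : Fin 2 → Pt | P (x 0) (x 1)})
    (hP : ∀ᵐ x ∂((m i).prod (m j)), P x.1 x.2) :
    ∀ᵐ x ∂(Measure.pi m), P (x i) (x j) := by
  have hinj : Function.Injective ![i, j] := by
    intro a b hab
    fin_cases a <;> fin_cases b <;> simp_all
  have hmp := mp_precomp m ![i, j] hinj
  suffices hs : ∀ᵐ x ∂(Measure.pi (fun k' => m (![i, j] k'))), P (x 0) (x 1) by
    exact hmp.quasiMeasurePreserving.ae hs
  have hmp3 := map_prod2 (fun k' => m (![i, j] k'))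
  rw [← hmp3.map_eq, ae_map_iff hmp3.measurable.aemeasurable hm]
  exact hP

lemma ae_det_ne {ι : Type*} [Fintype ι] (m : ι → Measure Pt) [∀ i, IsProbabilityMeasure (m i)]
    (h : ∀ i, m i ≪ volume) (x₀ : Pt) {i j k : ι} (hij : i ≠ j) (hik : i ≠ k) (hjk : j ≠ k) :
    ∀ᵐ x ∂(Measure.pi m), det2 (x j - x i) (x k - x₀) ≠ 0 := by
  apply ae_three m hij hik hjk (fun a b c => det2 (b - a) (c - x₀) ≠ 0)
  · exact (isClosed_eq (by fun_prop) continuous_const).measurableSet.compl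
  · have hm : MeasurableSet {x : (Pt × Pt) × Pt | det2 (x.1.2 - x.1.1) (x.2 - x₀) ≠ 0} :=
      (isClosed_eq (by fun_prop) continuous_const).measurableSet.compl
    rw [Measure.ae_prod_iff_ae_ae hm]
    filter_upwards [ae_ne (μ := m i) (h j)] with x hx
    exact line_null' (h k) (sub_ne_zero.mpr (Ne.symm hx)) x₀

lemma ae_oriO_ne {ι : Type*} [Fintype ι] (m : ι → Measure Pt) [∀ i, IsProbabilityMeasure (m i)]
    (h : ∀ i, m i ≪ volume) (x₀ : Pt) {i j : ι} (hij : i ≠ j) :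
    ∀ᵐ x ∂(Measure.pi m), ori x₀ (x i) (x j) ≠ 0 := by
  apply ae_two m hij (fun a b => ori x₀ a b ≠ 0)
  · exact (isClosed_eq (by fun_prop) continuous_const).measurableSet.compl
  · have hm : MeasurableSet {x : Pt × Pt | ori x₀ x.1 x.2 ≠ 0} :=
      (isClosed_eq (by fun_prop) continuous_const).measurableSet.compl
    rw [Measure.ae_prod_iff_ae_ae hm]
    have hne : ∀ᵐ x ∂(m i), x ≠ x₀ := by
      rw [ae_iff]
      have : {a : Pt | ¬ a ≠ x₀} = {x₀} := by ext; simp
      rw [this]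
      exact h i (by simp)
    filter_upwards [hne] with x hx
    exact line_null' (h j) (sub_ne_zero.mpr hx) x₀

/-- the rescaled product -/
noncomputable def stuff (x₀ : Pt) (x : Fin 4 → Pt) (r : ℝ) : ℝ :=
  ori (dil x₀ r (x 1)) (x 2) (x 3) * ori (dil x₀ r (x 0)) (x 2) (x 3) *
    (det2 (x 1 - x 0) (x 3 - dil x₀ r (x 0)) * det2 (x 1 - x 0) (x 2 - dil x₀ r (x 0)))

lemma continuous_stuff (x₀ : Pt) (x : Fin 4 → Pt) : Continuous (stuff x₀ x) := by
  unfold stuff dil
  fun_prop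

lemma prd_eq_stuff (x₀ : Pt) (x : Fin 4 → Pt) (r : ℝ) :
    prd (dil x₀ r (x 0)) (dil x₀ r (x 1)) (x 2) (x 3) = r ^ 2 * stuff x₀ x r := by
  simp only [prd, stuff, ori_eq, det2, dil, PiLp.add_apply, PiLp.sub_apply, PiLp.smul_apply,
    smul_eq_mul]
  ring

lemma stuff_zero (x₀ : Pt) (x : Fin 4 → Pt) :
    stuff x₀ x 0 = (ori x₀ (x 2) (x 3)) ^ 2 *
      (det2 (x 1 - x 0) (x 2 - x₀) * det2 (x 1 - x 0) (x 3 - x₀)) := by
  simp only [stuff, dil, zero_smul, add_zero]
  ring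

lemma prob4' (a b c d : Measure Pt) (ha : IsProbabilityMeasure a) (hb : IsProbabilityMeasure b)
    (hc : IsProbabilityMeasure c) (hd : IsProbabilityMeasure d) :
    ∀ i : Fin 4, IsProbabilityMeasure ((![a, b, c, d] : Fin 4 → Measure Pt) i) :=
  prob4 a b c d

lemma ac4 {a b c d : Measure Pt} (ha : a ≪ volume) (hb : b ≪ volume)
    (hc : c ≪ volume) (hd : d ≪ volume) :
    ∀ i : Fin 4, ((![a, b, c, d] : Fin 4 → Measure Pt) i) ≪ volume := by
  intro i
  fin_cases i <;> simpa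

lemma blow_limit (α β μ : Measure Pt) [IsProbabilityMeasure α] [IsProbabilityMeasure β]
    [IsProbabilityMeasure μ] (hα : α ≪ volume) (hβ : β ≪ volume) (hμ : μ ≪ volume)
    {D : Set Pt} (hD : MeasurableSet D) (x₀ : Pt) (r : ℕ → ℝ) (hr : ∀ n, 0 < r n)
    (hr0 : Tendsto r atTop (𝓝 0))
    (hαD : ∀ᵐ u ∂α, ∀ᶠ n in atTop, u ∈ dil x₀ (r n) ⁻¹' D)
    (hβD : ∀ᵐ u ∂β, ∀ᶠ n in atTop, u ∈ dil x₀ (r n) ⁻¹' D) :
    Tendsto (fun n => (Measure.pi ![α, β, μ, μ]).real
        ({x | 0 < prd (dil x₀ (r n) (x 0)) (dil x₀ (r n) (x 1)) (x 2) (x 3)} ∩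
          {x | x 0 ∈ dil x₀ (r n) ⁻¹' D ∧ x 1 ∈ dil x₀ (r n) ⁻¹' D})) atTop
      (𝓝 (H μ x₀ α β)) := by
  have i4 := prob4 α β μ μ
  have a4 := ac4 hα hβ hμ hμ
  rw [H]
  simp only [measureReal_def]
  rw [ENNReal.tendsto_toReal_iff (fun n => measure_ne_top _ _) (measure_ne_top _ _)]
  refine tendsto_measure_of_ae_tendsto_indicator (B := Set.univ) atTop (measurableSet_Lset x₀)
    ?_ MeasurableSet.univ (measure_ne_top _ _) (Eventually.of_forall fun _ => Set.subset_univ _) ?_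
  · intro n
    have hm := measurable_dil x₀ (r n)
    have h1 : MeasurableSet {x : Fin 4 → Pt |
        0 < prd (dil x₀ (r n) (x 0)) (dil x₀ (r n) (x 1)) (x 2) (x 3)} := by
      apply IsOpen.measurableSet
      have := continuous_dil x₀ (r n)
      exact isOpen_lt continuous_const (by fun_prop)
    have hDr : MeasurableSet (dil x₀ (r n) ⁻¹' D) := hD.preimage hm
    exact h1.inter ((hDr.preimage (measurable_pi_apply 0)).inter
      (hDr.preimage (measurable_pi_apply 1)))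
  · have e0 : ∀ᵐ x ∂(Measure.pi ![α, β, μ, μ]), ∀ᶠ n in atTop, x 0 ∈ dil x₀ (r n) ⁻¹' D :=
      (measurePreserving_eval ![α, β, μ, μ] 0).quasiMeasurePreserving.ae hαD
    have e1 : ∀ᵐ x ∂(Measure.pi ![α, β, μ, μ]), ∀ᶠ n in atTop, x 1 ∈ dil x₀ (r n) ⁻¹' D :=
      (measurePreserving_eval ![α, β, μ, μ] 1).quasiMeasurePreserving.ae hβD
    filter_upwards [e0, e1,
      ae_det_ne ![α, β, μ, μ] a4 x₀ (i := 0) (j := 1) (k := 2) (by decide) (by decide) (by decide),
      ae_det_ne ![α, β, μ, μ] a4 x₀ (i := 0) (j := 1) (k := 3) (by decide) (by decide) (by decide),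
      ae_oriO_ne ![α, β, μ, μ] a4 x₀ (i := 2) (j := 3) (by decide)] with x h0 h1 h2 h3 h4
    have hlim : Tendsto (fun n => stuff x₀ x (r n)) atTop (𝓝 (stuff x₀ x 0)) :=
      ((continuous_stuff x₀ x).tendsto 0).comp hr0
    have hsq : 0 < (ori x₀ (x 2) (x 3)) ^ 2 := by positivity
    have hL : x ∈ Lset x₀ ↔ 0 < stuff x₀ x 0 := by
      rw [stuff_zero]
      exact (mul_pos_iff_of_pos_left hsq).symm
    have hne : stuff x₀ x 0 ≠ 0 := by
      rw [stuff_zero]
      exact mul_ne_zero hsq.ne' (mul_ne_zero h2 h3)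
    have hev : ∀ᶠ n in atTop, (0 < stuff x₀ x (r n) ↔ 0 < stuff x₀ x 0) := by
      rcases lt_or_gt_of_ne hne with h | h
      · filter_upwards [hlim.eventually (gt_mem_nhds h)] with n hn
        constructor <;> intro h' <;> linarith
      · filter_upwards [hlim.eventually (lt_mem_nhds h)] with n hn
        exact ⟨fun _ => h, fun _ => hn⟩
    filter_upwards [h0, h1, hev] with n h0n h1n hn
    have hrn : 0 < (r n) ^ 2 := pow_pos (hr n) 2
    simp only [Set.mem_inter_iff, Set.mem_ofPred_eq, prd_eq_stuff]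
    rw [mul_pos_iff_of_pos_left hrn, hn, hL]
    exact ⟨fun h => h.1, fun h => ⟨h, h0n, h1n⟩⟩

/-- the blown-up second variation inequality -/
theorem blowup {D : Set Pt} (hD : MeasurableSet D) (hD0 : volume D ≠ 0) (hDt : volume D ≠ ⊤)
    (hmin : ∀ ν : Measure Pt, IsProbabilityMeasure ν → ν ≪ volume → F (volume[|D]) ≤ F ν)
    {x₀ : Pt}
    (hx : Tendsto (fun r => volume (D ∩ Metric.closedBall x₀ r) /
      volume (Metric.closedBall x₀ r)) (𝓝[>] 0) (𝓝 1)) {S T : Set Pt} (hS : MeasurableSet S)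
    (hT : MeasurableSet T) (hS0 : volume S ≠ 0) (hSt : volume S ≠ ⊤) (hT0 : volume T ≠ 0)
    (hTt : volume T ≠ ⊤) :
    H (volume[|D]) x₀ (volume[|S]) (volume[|T]) + H (volume[|D]) x₀ (volume[|T]) (volume[|S]) ≤
      H (volume[|D]) x₀ (volume[|S]) (volume[|S]) +
        H (volume[|D]) x₀ (volume[|T]) (volume[|T]) := by
  have iS : IsProbabilityMeasure (volume[|S]) := cond_isProbabilityMeasure_of_finite hS0 hSt
  have iT : IsProbabilityMeasure (volume[|T]) := cond_isProbabilityMeasure_of_finite hT0 hTt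
  have iD : IsProbabilityMeasure (volume[|D]) := cond_isProbabilityMeasure_of_finite hD0 hDt
  have hU : MeasurableSet (S ∪ T) := hS.union hT
  have hU0 : volume (S ∪ T) ≠ 0 := fun h => hS0 (measure_mono_null Set.subset_union_left h)
  have hUt : volume (S ∪ T) ≠ ⊤ := (measure_union_lt_top hSt.lt_top hTt.lt_top).ne
  obtain ⟨r, hr, hr0, hae⟩ := exists_scales hD hx hU hU0 hUt
  have hae' : ∀ᵐ u ∂(volume.restrict (S ∪ T)), ∀ᶠ n in atTop, u ∈ dil x₀ (r n) ⁻¹' D := by
    have : volume.restrict (S ∪ T) ≪ volume[|S ∪ T] := by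
      rw [ProbabilityTheory.cond]
      exact Measure.absolutelyContinuous_smul (by simpa using hUt)
    exact this.ae_le hae
  have haeS : ∀ᵐ u ∂(volume[|S]), ∀ᶠ n in atTop, u ∈ dil x₀ (r n) ⁻¹' D := by
    have h1 : volume[|S] ≪ volume.restrict (S ∪ T) := by
      rw [ProbabilityTheory.cond]
      exact (Measure.smul_absolutelyContinuous).trans
        (Measure.restrict_mono Set.subset_union_left le_rfl).absolutelyContinuous
    exact h1.ae_le hae'
  have haeT : ∀ᵐ u ∂(volume[|T]), ∀ᶠ n in atTop, u ∈ dil x₀ (r n) ⁻¹' D := by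
    have h1 : volume[|T] ≪ volume.restrict (S ∪ T) := by
      rw [ProbabilityTheory.cond]
      exact (Measure.smul_absolutelyContinuous).trans
        (Measure.restrict_mono Set.subset_union_right le_rfl).absolutelyContinuous
    exact h1.ae_le hae'
  have hrr : Tendsto r atTop (𝓝[>] 0) :=
    tendsto_nhdsWithin_iff.mpr ⟨hr0, Eventually.of_forall fun n => hr n⟩
  have dS : Tendsto (fun n => (volume[|S]) (dil x₀ (r n) ⁻¹' D)) atTop (𝓝 1) :=
    (density_cond hx hS hS0 hSt).comp hrr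
  have dT : Tendsto (fun n => (volume[|T]) (dil x₀ (r n) ⁻¹' D)) atTop (𝓝 1) :=
    (density_cond hx hT hT0 hTt).comp hrr
  have dSr : Tendsto (fun n => (volume[|S]).real (dil x₀ (r n) ⁻¹' D)) atTop (𝓝 1) := by
    simp only [measureReal_def]
    have h := (ENNReal.tendsto_toReal ENNReal.one_ne_top).comp dS
    rwa [ENNReal.toReal_one] at h
  have dTr : Tendsto (fun n => (volume[|T]).real (dil x₀ (r n) ⁻¹' D)) atTop (𝓝 1) := by
    simp only [measureReal_def]
    have h := (ENNReal.tendsto_toReal ENNReal.one_ne_top).comp dT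
    rwa [ENNReal.toReal_one] at h
  have acS : volume[|S] ≪ volume := cond_absolutelyContinuous
  have acT : volume[|T] ≪ volume := cond_absolutelyContinuous
  have acD : volume[|D] ≪ volume := cond_absolutelyContinuous
  have nzS : ∀ᶠ n in atTop, (volume[|S]) (dil x₀ (r n) ⁻¹' D) ≠ 0 := by
    filter_upwards [dS.eventually (lt_mem_nhds zero_lt_one)] with n hn using hn.ne'
  have nzT : ∀ᶠ n in atTop, (volume[|T]) (dil x₀ (r n) ⁻¹' D) ≠ 0 := by
    filter_upwards [dT.eventually (lt_mem_nhds zero_lt_one)] with n hn using hn.ne'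
  set μ := volume[|D] with hμ
  -- limits of the four terms
  have limG : ∀ {S' T' : Set Pt}, MeasurableSet S' → MeasurableSet T' → volume S' ≠ 0 →
      volume S' ≠ ⊤ → volume T' ≠ 0 → volume T' ≠ ⊤ →
      (∀ᵐ u ∂(volume[|S']), ∀ᶠ n in atTop, u ∈ dil x₀ (r n) ⁻¹' D) →
      (∀ᵐ u ∂(volume[|T']), ∀ᶠ n in atTop, u ∈ dil x₀ (r n) ⁻¹' D) →
      Tendsto (fun n => (volume[|S']).real (dil x₀ (r n) ⁻¹' D)) atTop (𝓝 1) →
      Tendsto (fun n => (volume[|T']).real (dil x₀ (r n) ⁻¹' D)) atTop (𝓝 1) →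
      (∀ᶠ n in atTop, (volume[|S']) (dil x₀ (r n) ⁻¹' D) ≠ 0) →
      (∀ᶠ n in atTop, (volume[|T']) (dil x₀ (r n) ⁻¹' D) ≠ 0) →
      Tendsto (fun n => G μ (μ[|dset x₀ (r n) S']) (μ[|dset x₀ (r n) T'])) atTop
        (𝓝 (H μ x₀ (volume[|S']) (volume[|T']))) := by
    intro S' T' hS' hT' hS0' hSt' hT0' hTt' haS haT hdS hdT hnS hnT
    have iS' : IsProbabilityMeasure (volume[|S']) := cond_isProbabilityMeasure_of_finite hS0' hSt'
    have iT' : IsProbabilityMeasure (volume[|T']) := cond_isProbabilityMeasure_of_finite hT0' hTt'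
    have hl := blow_limit (volume[|S']) (volume[|T']) μ cond_absolutelyContinuous
      cond_absolutelyContinuous acD hD x₀ r hr hr0 haS haT
    have h2 := ((hdS.inv₀ one_ne_zero).mul (hdT.inv₀ one_ne_zero)).mul hl
    simp only [inv_one, one_mul] at h2
    refine h2.congr' ?_
    filter_upwards [hnS, hnT] with n hn1 hn2
    exact (G_blow (hr n).ne' hD hS' hT' hD0 hDt hS0' hSt' hT0' hTt' hn1 hn2).symm
  have l1 := limG hS hT hS0 hSt hT0 hTt haeS haeT dSr dTr nzS nzT
  have l2 := limG hT hS hT0 hTt hS0 hSt haeT haeS dTr dSr nzT nzS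
  have l3 := limG hS hS hS0 hSt hS0 hSt haeS haeS dSr dSr nzS nzS
  have l4 := limG hT hT hT0 hTt hT0 hTt haeT haeT dTr dTr nzT nzT
  refine le_of_tendsto_of_tendsto (l1.add l2) (l3.add l4) ?_
  filter_upwards [nzS, nzT] with n hn1 hn2
  apply second_variation_sets μ acD hmin (measurableSet_dset hS) (measurableSet_dset hT)
  · intro h0
    apply hn1
    have h3 : volume (D ∩ dset x₀ (r n) S) = 0 := by
      rw [hμ, cond_apply hD, mul_eq_zero] at h0
      rcases h0 with h0 | h0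
      · rw [ENNReal.inv_eq_zero] at h0; exact absurd h0 hDt
      · exact h0
    rw [cond_apply hS]
    have h4 : volume (S ∩ dil x₀ (r n) ⁻¹' D) = kc (r n) * volume (D ∩ dset x₀ (r n) S) := by
      rw [← vol_dil_preimage x₀ (hr n).ne', Set.preimage_inter, dil_preimage_dset (hr n).ne',
        Set.inter_comm]
    rw [h4, h3]; simp
  · intro h0
    apply hn2
    have h3 : volume (D ∩ dset x₀ (r n) T) = 0 := by
      rw [hμ, cond_apply hD, mul_eq_zero] at h0
      rcases h0 with h0 | h0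
      · rw [ENNReal.inv_eq_zero] at h0; exact absurd h0 hDt
      · exact h0
    rw [cond_apply hT]
    have h4 : volume (T ∩ dil x₀ (r n) ⁻¹' D) = kc (r n) * volume (D ∩ dset x₀ (r n) T) := by
      rw [← vol_dil_preimage x₀ (hr n).ne', Set.preimage_inter, dil_preimage_dset (hr n).ne',
        Set.inter_comm]
    rw [h4, h3]; simp

end Pool.Agent.H21.Sylv
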