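import Pool.Agent.H21.Sylv.Final

/-! No uniform measure on a set is a minimiser. -/

open MeasureTheory ProbabilityTheory Filter Topology
open scoped Pointwise

namespace Pool.Agent.H21.Sylv

/-- the vertical direction -/
noncomputable def ev : Pt := !₂[0, 1]

lemma ev_ne_zero : ev ≠ 0 := by
  intro h
  have h1 : ev 1 = 0 := by rw [h]; rfl
  simp [ev] at h1

lemma det2_ev (z x : Pt) : det2 ev (z - x) = x 0 - z 0 := by
  simp [det2, ev]

/-- distribution function of the first coordinate -/
lemma exists_third (μ : Measure Pt) [IsProbabilityMeasure μ] (hμ : μ ≪ volume) :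
    ∃ t : ℝ, μ.real {z : Pt | z 0 < t} = 1 / 3 := by
  have hmeas : ∀ t : ℝ, MeasurableSet {z : Pt | z 0 < t} := fun t =>
    (isOpen_lt (by fun_prop) continuous_const).measurableSet
  have hc : Continuous (fun t : ℝ => μ.real {z : Pt | z 0 < t}) := by
    rw [continuous_iff_continuousAt]
    intro t
    have h := tendsto_sign μ (𝓝 t) (fun (s : ℝ) (z : Pt) => s - z 0) (fun z => t - z 0)
      (fun s => by apply Continuous.measurable; fun_prop) (by apply Continuous.measurable; fun_prop)
      (by
        have h1 := line_null' hμ ev_ne_zero (!₂[t, 0] : Pt)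
        filter_upwards [h1] with z hz
        rw [det2_ev] at hz
        refine ⟨by simpa using hz, ?_⟩
        apply Continuous.tendsto
        fun_prop)
    simp only [sub_pos] at h
    exact h
  have hmono : Monotone (fun n : ℕ => {z : Pt | z 0 < (n : ℝ)}) := by
    intro m n hmn z hz
    have hz' : z 0 < (m : ℝ) := hz
    exact lt_of_lt_of_le hz' (Nat.cast_le.mpr hmn)
  have hanti : Antitone (fun n : ℕ => {z : Pt | z 0 < -(n : ℝ)}) := by
    intro m n hmn z hz
    have hz' : z 0 < -(n : ℝ) := hz
    refine lt_of_lt_of_le hz' ?_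
    have : (m : ℝ) ≤ n := by exact_mod_cast hmn
    linarith
  have hU : (⋃ n : ℕ, {z : Pt | z 0 < (n : ℝ)}) = Set.univ := by
    ext z
    simp only [Set.mem_iUnion, Set.mem_ofPred_eq, Set.mem_univ, iff_true]
    exact exists_nat_gt (z 0)
  have hI : (⋂ n : ℕ, {z : Pt | z 0 < -(n : ℝ)}) = ∅ := by
    ext z
    simp only [Set.mem_iInter, Set.mem_ofPred_eq, Set.mem_empty_iff_false, iff_false, not_forall,
      not_lt]
    obtain ⟨n, hn⟩ := exists_nat_gt (-z 0)
    exact ⟨n, by linarith⟩
  have h1 := tendsto_measure_iUnion_atTop (μ := μ) hmono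
  rw [hU, measure_univ] at h1
  have h2 := tendsto_measure_iInter_atTop (μ := μ) (fun n => (hmeas _).nullMeasurableSet) hanti
    ⟨0, measure_ne_top _ _⟩
  rw [hI, measure_empty] at h2
  have h1' : Tendsto (fun n : ℕ => μ.real {z : Pt | z 0 < (n : ℝ)}) atTop (𝓝 1) := by
    have h := (ENNReal.tendsto_toReal ENNReal.one_ne_top).comp h1
    rwa [ENNReal.toReal_one] at h
  have h2' : Tendsto (fun n : ℕ => μ.real {z : Pt | z 0 < -(n : ℝ)}) atTop (𝓝 0) := by
    have h := (ENNReal.tendsto_toReal ENNReal.zero_ne_top).comp h2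
    rwa [ENNReal.toReal_zero] at h
  obtain ⟨b, hb⟩ := (h1'.eventually (lt_mem_nhds (show (1 / 3 : ℝ) < 1 by norm_num))).exists
  obtain ⟨a, ha⟩ := (h2'.eventually (gt_mem_nhds (show (0 : ℝ) < 1 / 3 by norm_num))).exists
  exact mem_range_of_exists_le_of_exists_ge hc ⟨_, ha.le⟩ ⟨_, hb.le⟩

/-- a density point with a non-halving vertical line -/
lemma exists_point {D : Set Pt} (hD0 : volume D ≠ 0)
    (hDt : volume D ≠ ⊤) :
    ∃ x₀ : Pt, Tendsto (fun r => volume (D ∩ Metric.closedBall x₀ r) /
      volume (Metric.closedBall x₀ r)) (𝓝[>] 0) (𝓝 1) ∧ adir (volume[|D]) x₀ ev ≠ 1 / 2 := by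
  have iD : IsProbabilityMeasure (volume[|D]) := cond_isProbabilityMeasure_of_finite hD0 hDt
  have acD : volume[|D] ≪ volume := cond_absolutelyContinuous
  obtain ⟨t, ht⟩ := exists_third (volume[|D]) acD
  have hae : ∀ᵐ x ∂(volume[|D]), Tendsto (fun r => volume (D ∩ Metric.closedBall x r) /
      volume (Metric.closedBall x r)) (𝓝[>] 0) (𝓝 1) := by
    have h1 := Besicovitch.ae_tendsto_measure_inter_div (volume : Measure Pt) D
    have h2 : volume[|D] ≪ volume.restrict D := by
      rw [ProbabilityTheory.cond]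
      exact Measure.smul_absolutelyContinuous
    exact h2.ae_le h1
  by_contra hcon
  push Not at hcon
  have hnull : (volume[|D]) {z : Pt | z 0 < t} = 0 := by
    refine measure_mono_null ?_ (ae_iff.mp hae)
    intro z hz hz2
    have h3 := hcon z hz2
    have h4 : adir (volume[|D]) z ev ≤ 1 / 3 := by
      rw [← ht, adir]
      refine measureReal_mono ?_ (measure_ne_top _ _)
      intro y hy
      have hy' : 0 < det2 ev (y - z) := hy
      rw [det2_ev] at hy'
      have hz' : z 0 < t := hz
      show y 0 < t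
      linarith
    rw [h3] at h4
    norm_num at h4
  rw [measureReal_def, hnull] at ht
  norm_num at ht

/-- **No uniform measure minimises.** -/
theorem not_minimiser {D : Set Pt} (hD : MeasurableSet D) (hD0 : volume D ≠ 0)
    (hDt : volume D ≠ ⊤) :
    ¬ (∀ ν : Measure Pt, IsProbabilityMeasure ν → ν ≪ volume → F (volume[|D]) ≤ F ν) := by
  intro hmin
  have iD : IsProbabilityMeasure (volume[|D]) := cond_isProbabilityMeasure_of_finite hD0 hDt
  have acD : volume[|D] ≪ volume := cond_absolutelyContinuous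
  obtain ⟨x₀, hx, ha⟩ := exists_point hD0 hDt
  obtain ⟨w, hw, hw2⟩ := exists_halving (volume[|D]) acD x₀
  have h := hdir_const hD hD0 hDt hmin hx hw ev_ne_zero
  rw [hdir_eq _ acD x₀ hw, hdir_eq _ acD x₀ ev_ne_zero, hw2] at h
  have h2 : (2 * adir (volume[|D]) x₀ ev - 1) ^ 2 ≤ 0 := by nlinarith
  have h3 : 2 * adir (volume[|D]) x₀ ev - 1 = 0 := by
    have := sq_nonneg (2 * adir (volume[|D]) x₀ ev - 1)
    have h4 : (2 * adir (volume[|D]) x₀ ev - 1) ^ 2 = 0 := le_antisymm h2 this
    exact pow_eq_zero_iff (two_ne_zero) |>.mp h4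
  apply ha
  linarith

/-- the event that one point lies in the triangle of the others is, almost surely, the event
that the product is negative -/
lemma real_event_eq (μ : Measure Pt) [IsProbabilityMeasure μ] (hμ : μ ≪ volume) :
    (Measure.pi (fun _ : Fin 4 => μ)).real {x | ∃ i, x i ∈ convexHull ℝ (x '' {i}ᶜ)} =
      1 - F μ := by
  rw [F, ← probReal_compl_eq_one_sub measurableSet_C4]
  apply measureReal_congr
  filter_upwards [ae_prd4_ne (fun _ : Fin 4 => μ) (fun _ => hμ)] with x hx
  apply propext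
  constructor
  · intro h hC
    have h1 := prd4_nonpos h
    have h2 : 0 < prd4 x := hC
    linarith
  · intro h
    apply mem_of_prd4_neg
    have h1 : ¬ (0 < prd4 x) := h
    exact lt_of_le_of_ne (not_lt.mp h1) hx

/-- lower bound version: the infimum over sets is strictly below every value. -/
theorem strict_of_lower_bound (p : ℝ)
    (hp : ∀ D : Set Pt, MeasurableSet D → volume D ≠ 0 → volume D ≠ ⊤ → p ≤ F (volume[|D]))
    {D : Set Pt} (hD : MeasurableSet D) (hD0 : volume D ≠ 0) (hDt : volume D ≠ ⊤) :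
    p < F (volume[|D]) := by
  refine lt_of_le_of_ne (hp D hD hD0 hDt) ?_
  intro heq
  apply not_minimiser hD hD0 hDt
  intro ν hν hac
  rw [← heq]
  exact sampling p hp ν hac

end Pool.Agent.H21.Sylv
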