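import Pool.Agent.H21.Sylv.Geo

/-! Null sets: collinear triples form a null set; selecting coordinates preserves product
measures. -/

open MeasureTheory ProbabilityTheory

namespace Pool.Agent.H21.Sylv

lemma mp_precomp {ι κ α : Type*} [Fintype ι] [Fintype κ] [MeasurableSpace α]
    (m : ι → Measure α) [∀ i, IsProbabilityMeasure (m i)] (e : κ → ι)
    (he : Function.Injective e) :
    MeasurePreserving (fun (x : ι → α) (k : κ) => x (e k)) (Measure.pi m)
      (Measure.pi (fun k => m (e k))) := by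
  refine ⟨by fun_prop, ?_⟩
  have h1 : iIndepFun (fun (i : ι) (ω : ι → α) => (fun a => a) (ω i)) (Measure.pi m) :=
    iIndepFun_pi (X := fun _ a => a) (fun i => aemeasurable_id)
  have h2 := h1.precomp he
  rw [iIndepFun_iff_map_fun_eq_pi_map
    (by intro i; exact (measurable_pi_apply (e i)).aemeasurable)] at h2
  have h3 : ∀ k : κ, Measure.map (fun ω : ι → α => ω (e k)) (Measure.pi m) = m (e k) := fun k =>
    (measurePreserving_eval m (e k)).map_eq
  simp only [h3] at h2
  exact h2

/-- the linear functional `det2 w` -/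
def detL (w : Pt) : Pt →ₗ[ℝ] ℝ where
  toFun z := det2 w z
  map_add' a b := by simp [det2]; ring
  map_smul' a b := by simp [det2]; ring

lemma det2_sub (w a b : Pt) : det2 w (a - b) = det2 w a - det2 w b := (detL w).map_sub a b

lemma detL_ker_ne_top {w : Pt} (hw : w ≠ 0) : LinearMap.ker (detL w) ≠ ⊤ := by
  intro h
  apply hw
  have h0 : detL w (EuclideanSpace.single 0 1) = 0 := by
    have : EuclideanSpace.single 0 1 ∈ LinearMap.ker (detL w) := by rw [h]; trivial
    exact this
  have h1 : detL w (EuclideanSpace.single 1 1) = 0 := by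
    have : EuclideanSpace.single 1 1 ∈ LinearMap.ker (detL w) := by rw [h]; trivial
    exact this
  simp [detL, det2] at h0 h1
  ext i
  fin_cases i
  · simpa using h1
  · simpa using h0

lemma line_null {w : Pt} (hw : w ≠ 0) (x : Pt) : volume {z : Pt | det2 w (z - x) = 0} = 0 := by
  have h := Measure.addHaar_submodule (volume : Measure Pt) _ (detL_ker_ne_top hw)
  have h2 : {z : Pt | det2 w (z - x) = 0} = (fun z => z - x) ⁻¹' (LinearMap.ker (detL w) : Set Pt) := by
    ext z
    simp [detL]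
  rw [h2]
  simp only [sub_eq_add_neg]
  rw [measure_preimage_add_right]
  exact h

lemma line_null' {μ : Measure Pt} (hμ : μ ≪ volume) {w : Pt} (hw : w ≠ 0) (x : Pt) :
    ∀ᵐ z ∂μ, det2 w (z - x) ≠ 0 := by
  have := hμ (line_null hw x)
  rw [ae_iff]
  simpa using this

@[fun_prop]
lemma continuous_det2 {α : Type*} [TopologicalSpace α] {f g : α → Pt} (hf : Continuous f)
    (hg : Continuous g) : Continuous (fun a => det2 (f a) (g a)) := by
  unfold det2
  fun_prop

@[fun_prop]
lemma continuous_ori {α : Type*} [TopologicalSpace α] {f g h : α → Pt} (hf : Continuous f)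
    (hg : Continuous g) (hh : Continuous h) : Continuous (fun a => ori (f a) (g a) (h a)) := by
  unfold ori
  fun_prop

@[fun_prop]
lemma continuous_prd {α : Type*} [TopologicalSpace α] {f g h k : α → Pt} (hf : Continuous f)
    (hg : Continuous g) (hh : Continuous h) (hk : Continuous k) :
    Continuous (fun a => prd (f a) (g a) (h a) (k a)) := by
  unfold prd
  fun_prop

lemma continuous_prd4 : Continuous prd4 := by
  unfold prd4
  fun_prop

lemma ae_ne {μ ν : Measure Pt} [IsProbabilityMeasure μ] [IsProbabilityMeasure ν]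
    (hν : ν ≪ volume) : ∀ᵐ x ∂(μ.prod ν), x.1 ≠ x.2 := by
  have hm : MeasurableSet {x : Pt × Pt | x.1 ≠ x.2} :=
    (isClosed_eq continuous_fst continuous_snd).measurableSet.compl
  rw [Measure.ae_prod_iff_ae_ae hm]
  refine Filter.Eventually.of_forall fun x => ?_
  rw [ae_iff]
  have : {a : Pt | ¬ x ≠ a} = {x} := by ext; simp [eq_comm]
  rw [this]
  exact hν (by simp)

lemma ae_ori_ne3 {m0 m1 m2 : Measure Pt} [IsProbabilityMeasure m0] [IsProbabilityMeasure m1]
    [IsProbabilityMeasure m2] (h1 : m1 ≪ volume) (h2 : m2 ≪ volume) :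
    ∀ᵐ x ∂((m0.prod m1).prod m2), ori x.1.1 x.1.2 x.2 ≠ 0 := by
  have hm : MeasurableSet {x : (Pt × Pt) × Pt | ori x.1.1 x.1.2 x.2 ≠ 0} :=
    (isClosed_eq (by fun_prop) continuous_const).measurableSet.compl
  rw [Measure.ae_prod_iff_ae_ae hm]
  filter_upwards [ae_ne (μ := m0) h1] with x hx
  exact line_null' h2 (sub_ne_zero.mpr (Ne.symm hx)) x.1

lemma map_prod3 (m : Fin 3 → Measure Pt) [∀ i, IsProbabilityMeasure (m i)] :
    MeasurePreserving (fun p : (Pt × Pt) × Pt => (![p.1.1, p.1.2, p.2] : Fin 3 → Pt))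
      (((m 0).prod (m 1)).prod (m 2)) (Measure.pi m) := by
  have hmeas : Measurable (fun p : (Pt × Pt) × Pt => (![p.1.1, p.1.2, p.2] : Fin 3 → Pt)) := by
    rw [measurable_pi_iff]
    intro i
    fin_cases i
    · exact measurable_fst.fst
    · exact measurable_fst.snd
    · exact measurable_snd
  refine ⟨hmeas, ?_⟩
  symm
  apply Measure.pi_eq
  intro s hs
  rw [Measure.map_apply hmeas (MeasurableSet.univ_pi hs)]
  have : (fun p : (Pt × Pt) × Pt => (![p.1.1, p.1.2, p.2] : Fin 3 → Pt)) ⁻¹' (Set.univ.pi s)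
      = (s 0 ×ˢ s 1) ×ˢ s 2 := by
    ext p
    simp [Set.mem_pi, Fin.forall_fin_succ, and_assoc]
  rw [this, Measure.prod_prod, Measure.prod_prod, Fin.prod_univ_three]

lemma ae_ori_ne {ι : Type*} [Fintype ι] (m : ι → Measure Pt) [∀ i, IsProbabilityMeasure (m i)]
    (h : ∀ i, m i ≪ volume) {i j k : ι} (hij : i ≠ j) (hik : i ≠ k) (hjk : j ≠ k) :
    ∀ᵐ x ∂(Measure.pi m), ori (x i) (x j) (x k) ≠ 0 := by
  have hinj : Function.Injective ![i, j, k] := by
    intro a b hab
    fin_cases a <;> fin_cases b <;> simp_all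
  have hmp := mp_precomp m ![i, j, k] hinj
  have hm : MeasurableSet {x : Fin 3 → Pt | ori (x 0) (x 1) (x 2) ≠ 0} :=
    (isClosed_eq (by fun_prop) continuous_const).measurableSet.compl
  suffices hs : ∀ᵐ x ∂(Measure.pi (fun k' => m (![i, j, k] k'))), ori (x 0) (x 1) (x 2) ≠ 0 by
    exact hmp.quasiMeasurePreserving.ae hs
  have hmp3 := map_prod3 (fun k' => m (![i, j, k] k'))
  rw [← hmp3.map_eq, ae_map_iff hmp3.measurable.aemeasurable hm]
  exact ae_ori_ne3 (h _) (h _)

lemma ae_prd4_ne (m : Fin 4 → Measure Pt) [∀ i, IsProbabilityMeasure (m i)]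
    (h : ∀ i, m i ≪ volume) : ∀ᵐ x ∂(Measure.pi m), prd4 x ≠ 0 := by
  filter_upwards [ae_ori_ne m h (i := 1) (j := 2) (k := 3) (by decide) (by decide) (by decide),
    ae_ori_ne m h (i := 0) (j := 2) (k := 3) (by decide) (by decide) (by decide),
    ae_ori_ne m h (i := 0) (j := 1) (k := 3) (by decide) (by decide) (by decide),
    ae_ori_ne m h (i := 0) (j := 1) (k := 2) (by decide) (by decide) (by decide)] with x h1 h2 h3 h4
  rw [prd4, prd]
  exact mul_ne_zero (mul_ne_zero (mul_ne_zero h1 h2) h3) h4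

end Pool.Agent.H21.Sylv
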