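import Pool.Agent.H21.Sylv.Null

/-! Sampling: if `p` is a lower bound for all uniform measures on sets, it is a lower bound for
all absolutely continuous probability measures. -/

open MeasureTheory ProbabilityTheory Filter Topology

namespace Pool.Agent.H21.Sylv

/-- quadruples with positive product (convex position) -/
def C4 : Set (Fin 4 → Pt) := {x | 0 < prd4 x}

lemma isOpen_C4 : IsOpen C4 := isOpen_lt continuous_const continuous_prd4

lemma measurableSet_C4 : MeasurableSet C4 := isOpen_C4.measurableSet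

/-- probability of convex position of four independent points with law `μ` -/
noncomputable def F (μ : Measure Pt) : ℝ := (Measure.pi (fun _ : Fin 4 => μ)).real C4

lemma F_le_one (μ : Measure Pt) [IsProbabilityMeasure μ] : F μ ≤ 1 := measureReal_le_one

lemma F_nonneg (μ : Measure Pt) : 0 ≤ F μ := measureReal_nonneg

lemma map_prod2 (m : Fin 2 → Measure Pt) [∀ i, IsProbabilityMeasure (m i)] :
    MeasurePreserving (fun p : Pt × Pt => (![p.1, p.2] : Fin 2 → Pt))
      ((m 0).prod (m 1)) (Measure.pi m) := by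
  have hmeas : Measurable (fun p : Pt × Pt => (![p.1, p.2] : Fin 2 → Pt)) := by
    rw [measurable_pi_iff]
    intro i
    fin_cases i
    · exact measurable_fst
    · exact measurable_snd
  refine ⟨hmeas, ?_⟩
  symm
  apply Measure.pi_eq
  intro s hs
  rw [Measure.map_apply hmeas (MeasurableSet.univ_pi hs)]
  have : (fun p : Pt × Pt => (![p.1, p.2] : Fin 2 → Pt)) ⁻¹' (Set.univ.pi s)
      = s 0 ×ˢ s 1 := by
    ext p
    simp [Set.mem_pi, Fin.forall_fin_succ]
  rw [this, Measure.prod_prod, Fin.prod_univ_two]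

lemma ae_ne_pi {ι : Type*} [Fintype ι] (m : ι → Measure Pt) [∀ i, IsProbabilityMeasure (m i)]
    (h : ∀ i, m i ≪ volume) {i j : ι} (hij : i ≠ j) :
    ∀ᵐ x ∂(Measure.pi m), x i ≠ x j := by
  have hinj : Function.Injective ![i, j] := by
    intro a b hab
    fin_cases a <;> fin_cases b <;> simp_all
  have hmp := mp_precomp m ![i, j] hinj
  have hm : MeasurableSet {x : Fin 2 → Pt | x 0 ≠ x 1} :=
    (isClosed_eq (by fun_prop) (by fun_prop)).measurableSet.compl
  suffices hs : ∀ᵐ x ∂(Measure.pi (fun k' => m (![i, j] k'))), x 0 ≠ x 1 by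
    exact hmp.quasiMeasurePreserving.ae hs
  have hmp3 := map_prod2 (fun k' => m (![i, j] k'))
  rw [← hmp3.map_eq, ae_map_iff hmp3.measurable.aemeasurable hm]
  exact ae_ne (h _)

/-- existence of a good sample -/
lemma exists_sample (ν : Measure Pt) [IsProbabilityMeasure ν] (hν : ν ≪ volume) (n : ℕ) :
    ∃ P : Fin n → Pt, (∀ i j, i ≠ j → P i ≠ P j) ∧
      (∀ e : Fin 4 → Fin n, Function.Injective e → prd4 (fun k => P (e k)) ≠ 0) ∧
      ((Finset.univ.filter (fun e : Fin 4 → Fin n => Function.Injective e ∧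
        0 < prd4 (fun k => P (e k)))).card : ℝ) ≤
      (Finset.univ.filter (fun e : Fin 4 → Fin n => Function.Injective e)).card * F ν := by
  classical
  set M : Measure (Fin n → Pt) := Measure.pi (fun _ => ν) with hM
  set g : (Fin n → Pt) → ℝ := fun P =>
    ∑ e ∈ Finset.univ.filter (fun e : Fin 4 → Fin n => Function.Injective e),
      Set.indicator ((fun (P : Fin n → Pt) (k : Fin 4) => P (e k)) ⁻¹' C4) 1 P with hg
  have hmeas : ∀ e : Fin 4 → Fin n,
      MeasurableSet ((fun (P : Fin n → Pt) (k : Fin 4) => P (e k)) ⁻¹' C4) := fun e =>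
    measurableSet_C4.preimage (by fun_prop)
  have hint : ∀ e : Fin 4 → Fin n, Integrable (Set.indicator
      ((fun (P : Fin n → Pt) (k : Fin 4) => P (e k)) ⁻¹' C4) (1 : (Fin n → Pt) → ℝ)) M := by
    intro e
    exact (integrable_const 1).indicator (hmeas e)
  have hgint : Integrable g M := integrable_finsetSum _ (fun e _ => hint e)
  have hgval : ∫ P, g P ∂M =
      (Finset.univ.filter (fun e : Fin 4 → Fin n => Function.Injective e)).card * F ν := by
    rw [hg, integral_finsetSum _ (fun e _ => hint e)]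
    rw [Finset.sum_congr rfl (g := fun _ => F ν), Finset.sum_const, nsmul_eq_mul]
    intro e he
    rw [Finset.mem_filter] at he
    rw [integral_indicator_one (hmeas e)]
    have hmp := mp_precomp (fun _ : Fin n => ν) e he.2
    rw [F, measureReal_def, measureReal_def, hmp.measure_preimage measurableSet_C4.nullMeasurableSet]
  have hae : ∀ᵐ P ∂M, (∀ i j, i ≠ j → P i ≠ P j) ∧
      (∀ e : Fin 4 → Fin n, Function.Injective e → prd4 (fun k => P (e k)) ≠ 0) := by
    refine Filter.Eventually.and ?_ ?_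
    · rw [ae_all_iff]; intro i
      rw [ae_all_iff]; intro j
      by_cases hij : i = j
      · exact Filter.Eventually.of_forall fun P h => absurd hij h
      · filter_upwards [ae_ne_pi (fun _ : Fin n => ν) (fun _ => hν) hij] with P hP _ using hP
    · rw [ae_all_iff]; intro e
      by_cases he : Function.Injective e
      · have hmp := mp_precomp (fun _ : Fin n => ν) e he
        have := hmp.quasiMeasurePreserving.ae (ae_prd4_ne (fun _ : Fin 4 => ν) (fun _ => hν))
        filter_upwards [this] with P hP _ using hP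
      · exact Filter.Eventually.of_forall fun P h => absurd h he
  obtain ⟨P, hP, hPle⟩ := exists_notMem_null_le_integral hgint (N := {P | ¬ _}) (ae_iff.mp hae)
  rw [Set.notMem_ofPred_iff, not_not] at hP
  refine ⟨P, hP.1, hP.2, ?_⟩
  rw [← hgval]
  refine le_trans (le_of_eq ?_) hPle
  rw [hg]
  simp only [Set.indicator_apply, Pi.one_apply]
  rw [← Finset.filter_filter, Finset.card_filter]
  push_cast
  rfl

lemma pi_ball_subset_of_neg {x : Fin 4 → Pt} (hx : prd4 x < 0) :
    ∀ᶠ δ in 𝓝[>] (0 : ℝ), ∀ y : Fin 4 → Pt, (∀ k, y k ∈ Metric.ball (x k) δ) → prd4 y < 0 := by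
  have ho : IsOpen {x : Fin 4 → Pt | prd4 x < 0} := isOpen_lt continuous_prd4 continuous_const
  obtain ⟨ε, hε, hball⟩ := Metric.isOpen_iff.mp ho x hx
  filter_upwards [Ioo_mem_nhdsGT hε] with δ hδ y hy
  apply hball
  rw [Metric.mem_ball, dist_pi_lt_iff hε]
  intro k
  exact lt_trans (hy k) hδ.2

lemma exists_delta {n : ℕ} (P : Fin n → Pt) (hP : ∀ i j, i ≠ j → P i ≠ P j) :
    ∃ δ : ℝ, 0 < δ ∧ (∀ i j, i ≠ j → Disjoint (Metric.ball (P i) δ) (Metric.ball (P j) δ)) ∧
      (∀ e : Fin 4 → Fin n, prd4 (fun k => P (e k)) < 0 →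
        ∀ y : Fin 4 → Pt, (∀ k, y k ∈ Metric.ball (P (e k)) δ) → prd4 y < 0) := by
  have h1 : ∀ᶠ δ in 𝓝[>] (0 : ℝ), ∀ i j, i ≠ j →
      Disjoint (Metric.ball (P i) δ) (Metric.ball (P j) δ) := by
    rw [eventually_all]; intro i
    rw [eventually_all]; intro j
    by_cases hij : i = j
    · exact Filter.Eventually.of_forall fun δ h => absurd hij h
    · have hd : 0 < dist (P i) (P j) / 2 := by
        have := dist_pos.mpr (hP i j hij)
        linarith
      filter_upwards [Ioo_mem_nhdsGT hd] with δ hδ _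
      apply Metric.ball_disjoint_ball
      linarith [hδ.2]
  have h2 : ∀ᶠ δ in 𝓝[>] (0 : ℝ), ∀ e : Fin 4 → Fin n, prd4 (fun k => P (e k)) < 0 →
        ∀ y : Fin 4 → Pt, (∀ k, y k ∈ Metric.ball (P (e k)) δ) → prd4 y < 0 := by
    rw [eventually_all]; intro e
    by_cases he : prd4 (fun k => P (e k)) < 0
    · filter_upwards [pi_ball_subset_of_neg he] with δ hδ _ using hδ
    · exact Filter.Eventually.of_forall fun δ h => absurd h he
  have h3 : ∀ᶠ δ in 𝓝[>] (0 : ℝ), 0 < δ := self_mem_nhdsWithin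
  obtain ⟨δ, h1, h2, h3⟩ := (h1.and (h2.and h3)).exists
  exact ⟨δ, h3, h1, h2⟩

/-- The sampling inequality for one `n`. -/
lemma sampling_n (p : ℝ)
    (hp : ∀ D : Set Pt, MeasurableSet D → volume D ≠ 0 → volume D ≠ ⊤ → p ≤ F (volume[|D]))
    (ν : Measure Pt) [IsProbabilityMeasure ν] (hν : ν ≪ volume) (n : ℕ) (hn : 0 < n) :
    p * (n : ℝ) ^ 4 ≤ ((n : ℝ) ^ 4 - (Finset.univ.filter
        (fun e : Fin 4 → Fin n => Function.Injective e)).card) +
      (Finset.univ.filter (fun e : Fin 4 → Fin n => Function.Injective e)).card * F ν := by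
  classical
  obtain ⟨P, hP1, hP2, hP3⟩ := exists_sample ν hν n
  obtain ⟨δ, hδ, hdisj, hneg⟩ := exists_delta P hP1
  set B : Fin n → Set Pt := fun i => Metric.ball (P i) δ with hB
  set D : Set Pt := ⋃ i, B i with hD
  set b : ENNReal := volume (Metric.ball (0 : Pt) δ) with hb
  have hb0 : b ≠ 0 := (Metric.measure_ball_pos volume _ hδ).ne'
  have hbt : b ≠ ⊤ := measure_ball_lt_top.ne
  have hBb : ∀ i, volume (B i) = b := fun i => by
    rw [hB, hb]; exact Measure.addHaar_ball_center volume (P i) δ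
  have hBm : ∀ i, MeasurableSet (B i) := fun i => measurableSet_ball
  have hDm : MeasurableSet D := MeasurableSet.iUnion hBm
  have hDvol : volume D = n * b := by
    rw [hD, measure_iUnion (fun i j hij => hdisj i j hij) hBm, tsum_fintype,
      Finset.sum_congr rfl (fun i _ => hBb i)]
    simp only [Finset.sum_const, Finset.card_univ, Fintype.card_fin, nsmul_eq_mul]
  have hn0 : (n : ENNReal) ≠ 0 := by exact_mod_cast hn.ne'
  have hD0 : volume D ≠ 0 := by rw [hDvol]; exact mul_ne_zero hn0 hb0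
  have hDt : volume D ≠ ⊤ := by rw [hDvol]; exact ENNReal.mul_ne_top (by simp) hbt
  have hpD := hp D hDm hD0 hDt
  set m : Measure Pt := volume[|D] with hm
  have hmprob : IsProbabilityMeasure m := cond_isProbabilityMeasure_of_finite hD0 hDt
  have hmB : ∀ i, m (B i) = (n : ENNReal)⁻¹ := by
    intro i
    rw [hm, cond_apply hDm]
    have : D ∩ B i = B i := Set.inter_eq_right.mpr (Set.subset_iUnion B i)
    rw [this, hBb, hDvol, ENNReal.mul_inv (Or.inl hn0) (Or.inr hb0), mul_assoc,
      ENNReal.inv_mul_cancel hb0 hbt, mul_one]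
  -- the box decomposition
  set box : (Fin 4 → Fin n) → Set (Fin 4 → Pt) := fun e => Set.univ.pi (fun k => B (e k)) with hbox
  set M : Measure (Fin 4 → Pt) := Measure.pi (fun _ => m) with hM
  have hMbox : ∀ e, M (box e) = ((n : ENNReal)⁻¹) ^ 4 := by
    intro e
    rw [hM, hbox, Measure.pi_pi]
    simp [hmB]
  have hMD : ∀ᵐ x ∂M, ∀ k, x k ∈ D := by
    rw [ae_all_iff]
    intro k
    have h1 : ∀ᵐ x ∂m, x ∈ D := by
      rw [hm]; exact ae_cond_mem hDm
    exact (measurePreserving_eval (fun _ : Fin 4 => m) k).quasiMeasurePreserving.ae h1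
  set bad : Finset (Fin 4 → Fin n) := Finset.univ.filter
    (fun e => Function.Injective e ∧ prd4 (fun k => P (e k)) < 0) with hbad
  have hsub : C4 ≤ᵐ[M] ⋃ e ∈ badᶜ, box e := by
    filter_upwards [hMD] with x hx hxC
    have h1 : ∀ k, ∃ i, x k ∈ B i := fun k => Set.mem_iUnion.mp (hx k)
    choose e he using h1
    have : e ∈ badᶜ := by
      rw [Finset.mem_compl]
      intro hbe
      rw [hbad, Finset.mem_filter] at hbe
      have h2 := hneg e hbe.2.2 x he
      have h3 : 0 < prd4 x := hxC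
      linarith
    have hxe : x ∈ box e := by
      rw [hbox]; intro k _; exact he k
    exact Set.mem_biUnion (Finset.mem_coe.mpr this) hxe
  have hle : M C4 ≤ badᶜ.card * ((n : ENNReal)⁻¹) ^ 4 := by
    calc M C4 ≤ M (⋃ e ∈ badᶜ, box e) := measure_mono_ae hsub
      _ ≤ ∑ e ∈ badᶜ, M (box e) := measure_biUnion_finset_le _ _
      _ = badᶜ.card * ((n : ENNReal)⁻¹) ^ 4 := by
          rw [Finset.sum_congr rfl (fun e _ => hMbox e), Finset.sum_const, nsmul_eq_mul]
  have hFle : F m ≤ badᶜ.card * ((n : ℝ)⁻¹) ^ 4 := by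
    have h4 := ENNReal.toReal_mono (by
      apply ENNReal.mul_ne_top (by simp)
      apply ENNReal.pow_ne_top
      simp [hn.ne']) hle
    simpa [F, measureReal_def, ENNReal.toReal_mul, ENNReal.toReal_pow, ENNReal.toReal_inv] using h4
  have hcard : (badᶜ.card : ℝ) = (n : ℝ) ^ 4 - bad.card := by
    rw [Finset.card_compl, Nat.cast_sub (Finset.card_le_univ _)]
    simp
  have hsplit : ((Finset.univ.filter (fun e : Fin 4 → Fin n => Function.Injective e)).card : ℝ) =
      bad.card + (Finset.univ.filter (fun e : Fin 4 → Fin n => Function.Injective e ∧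
        0 < prd4 (fun k => P (e k)))).card := by
    have hset : Finset.univ.filter (fun e : Fin 4 → Fin n => Function.Injective e) =
        bad ∪ (Finset.univ.filter (fun e : Fin 4 → Fin n => Function.Injective e ∧
        0 < prd4 (fun k => P (e k)))) := by
      ext e
      simp only [hbad, Finset.mem_union, Finset.mem_filter, Finset.mem_univ, true_and]
      constructor
      · intro he
        rcases lt_or_gt_of_ne (hP2 e he) with h | h
        · exact Or.inl ⟨he, h⟩
        · exact Or.inr ⟨he, h⟩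
      · rintro (h | h) <;> exact h.1
    rw [hset, Finset.card_union_of_disjoint]
    · push_cast; ring
    · rw [Finset.disjoint_left]
      intro e he he'
      rw [hbad, Finset.mem_filter] at he
      rw [Finset.mem_filter] at he'
      linarith [he.2.2, he'.2.2]
  have hnr : (0 : ℝ) < n := by exact_mod_cast hn
  have h5 : p * (n : ℝ) ^ 4 ≤ (badᶜ.card : ℝ) := by
    have h6 : p ≤ (badᶜ.card : ℝ) * ((n : ℝ)⁻¹) ^ 4 := le_trans hpD hFle
    calc p * (n : ℝ) ^ 4 ≤ ((badᶜ.card : ℝ) * ((n : ℝ)⁻¹) ^ 4) * (n : ℝ) ^ 4 := by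
          apply mul_le_mul_of_nonneg_right h6 (by positivity)
      _ = (badᶜ.card : ℝ) := by
          field_simp
  rw [hcard] at h5
  linarith

lemma card_inj_le (n : ℕ) :
    ((Finset.univ.filter (fun e : Fin 4 → Fin n => Function.Injective e)).card : ℝ)
      ≤ (n : ℝ) ^ 4 := by
  have h := Finset.card_le_univ (Finset.univ.filter
    (fun e : Fin 4 → Fin n => Function.Injective e))
  have h2 : Fintype.card (Fin 4 → Fin n) = n ^ 4 := by simp
  rw [h2] at h
  exact_mod_cast h

lemma card_inj_ge (n : ℕ) :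
    (n : ℝ) ^ 4 - 6 * (n : ℝ) ^ 3 ≤
      ((Finset.univ.filter (fun e : Fin 4 → Fin n => Function.Injective e)).card : ℝ) := by
  classical
  have h1 : (Finset.univ.filter (fun e : Fin 4 → Fin n => Function.Injective e)).card
      = n.descFactorial 4 := by
    rw [← Fintype.card_subtype]
    rw [Fintype.card_congr (Equiv.subtypeInjectiveEquivEmbedding (Fin 4) (Fin n))]
    rw [Fintype.card_embedding_eq]
    simp
  rw [h1]
  rcases le_or_gt n 3 with hn | hn
  · have : (n : ℝ) ^ 4 - 6 * (n : ℝ) ^ 3 ≤ 0 := by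
      have h3 : (n : ℝ) ≤ 3 := by exact_mod_cast hn
      have h4 : (0 : ℝ) ≤ (n : ℝ) ^ 3 := by positivity
      nlinarith
    exact this.trans (by positivity)
  · obtain ⟨k, rfl⟩ : ∃ k, n = k + 4 := ⟨n - 4, by omega⟩
    have h2 : (k + 4).descFactorial 4 = (k + 4) * (k + 3) * (k + 2) * (k + 1) := by
      simp [Nat.descFactorial_succ]
      ring
    rw [h2]
    push_cast
    have hk : (0 : ℝ) ≤ k := Nat.cast_nonneg k
    nlinarith [mul_nonneg hk hk]

/-- **Sampling lemma.** -/
theorem sampling (p : ℝ)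
    (hp : ∀ D : Set Pt, MeasurableSet D → volume D ≠ 0 → volume D ≠ ⊤ → p ≤ F (volume[|D]))
    (ν : Measure Pt) [IsProbabilityMeasure ν] (hν : ν ≪ volume) : p ≤ F ν := by
  apply le_of_forall_pos_le_add
  intro ε hε
  obtain ⟨n, hn⟩ := exists_nat_gt (6 / ε)
  have hn0 : (0 : ℝ) < n := lt_trans (by positivity) hn
  have hnpos : 0 < n := by exact_mod_cast hn0
  have h := sampling_n p hp ν hν n hnpos
  have h1 := card_inj_le n
  have h2 := card_inj_ge n
  have hF := F_nonneg ν
  have hF1 := F_le_one ν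
  have h3 : p * (n : ℝ) ^ 4 ≤ 6 * (n : ℝ) ^ 3 + (n : ℝ) ^ 4 * F ν := by nlinarith
  have h4 : p ≤ 6 / n + F ν := by
    have h5 : p * (n : ℝ) ^ 4 ≤ (6 / n + F ν) * (n : ℝ) ^ 4 := by
      have : (6 / n + F ν) * (n : ℝ) ^ 4 = 6 * (n : ℝ) ^ 3 + (n : ℝ) ^ 4 * F ν := by
        field_simp
      rw [this]; exact h3
    exact le_of_mul_le_mul_right h5 (by positivity)
  have h6 : 6 / (n : ℝ) < ε := by
    rw [div_lt_iff₀ hn0]
    rw [div_lt_iff₀ hε] at hn
    linarith
  linarith

end Pool.Agent.H21.Sylv
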