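import Pool.Agent.H21.Sylv.Sampling

/-! The second variation of the convex-position probability at a minimiser. -/

open MeasureTheory ProbabilityTheory Filter Topology

namespace Pool.Agent.H21.Sylv

/-- product of densities -/
lemma pi_withDensity (μ : Measure Pt) [IsFiniteMeasure μ] (g : Pt → ℝ)
    (hg0 : ∀ x, 0 ≤ g x) (hint : Integrable g μ) :
    Measure.pi (fun _ : Fin 4 => μ.withDensity (fun x => ENNReal.ofReal (g x))) =
      (Measure.pi (fun _ : Fin 4 => μ)).withDensity
        (fun x => ENNReal.ofReal (∏ i, g (x i))) := by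
  have hfin : IsFiniteMeasure (μ.withDensity (fun x => ENNReal.ofReal (g x))) :=
    isFiniteMeasure_withDensity_ofReal hint.2
  apply Measure.pi_eq
  intro s hs
  rw [withDensity_apply _ (MeasurableSet.univ_pi hs), Measure.restrict_pi_pi]
  rw [← ofReal_integral_eq_lintegral_ofReal]
  · rw [integral_fintype_prod_eq_prod (f := fun _ x => g x)]
    rw [ENNReal.ofReal_prod_of_nonneg]
    · apply Finset.prod_congr rfl
      intro i _
      rw [withDensity_apply _ (hs i), ofReal_integral_eq_lintegral_ofReal hint.restrict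
        (Eventually.of_forall hg0)]
    · intro i _
      exact integral_nonneg hg0
  · exact Integrable.fintype_prod (f := fun _ x => g x) (fun i => hint.restrict)
  · exact Eventually.of_forall fun x => Finset.prod_nonneg fun i _ => hg0 _

lemma F_withDensity (μ : Measure Pt) [IsFiniteMeasure μ] (g : Pt → ℝ)
    (hg0 : ∀ x, 0 ≤ g x) (hint : Integrable g μ) :
    F (μ.withDensity (fun x => ENNReal.ofReal (g x))) =
      ∫ x in C4, ∏ i, g (x i) ∂(Measure.pi (fun _ : Fin 4 => μ)) := by
  rw [F, pi_withDensity μ g hg0 hint, measureReal_def, withDensity_apply _ measurableSet_C4]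
  rw [← ofReal_integral_eq_lintegral_ofReal, ENNReal.toReal_ofReal]
  · exact integral_nonneg fun x => Finset.prod_nonneg fun i _ => hg0 _
  · exact (Integrable.fintype_prod (f := fun _ x => g x) (fun i => hint)).integrableOn
  · exact Eventually.of_forall fun x => Finset.prod_nonneg fun i _ => hg0 _

/-- Perturbed density stays a probability density. -/
lemma isProb_withDensity (μ : Measure Pt) [IsProbabilityMeasure μ] (g : Pt → ℝ)
    (hg0 : ∀ x, 0 ≤ g x) (hint : Integrable g μ) (h1 : ∫ x, g x ∂μ = 1) :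
    IsProbabilityMeasure (μ.withDensity (fun x => ENNReal.ofReal (g x))) := by
  constructor
  rw [withDensity_apply _ MeasurableSet.univ, Measure.restrict_univ,
    ← ofReal_integral_eq_lintegral_ofReal hint (Eventually.of_forall hg0), h1]
  simp

/-- Minimality implies nonnegativity of the second variation (before symmetrisation). -/
lemma second_variation_aux (μ : Measure Pt) [IsProbabilityMeasure μ] (hμ : μ ≪ volume)
    (hmin : ∀ ν : Measure Pt, IsProbabilityMeasure ν → ν ≪ volume → F μ ≤ F ν)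
    (σ : Pt → ℝ) (hσ : Measurable σ) (C : ℝ) (hC : ∀ x, |σ x| ≤ C) (h0 : ∫ x, σ x ∂μ = 0) :
    0 ≤ ∫ x in C4, (σ (x 0) * σ (x 1) + σ (x 0) * σ (x 2) + σ (x 0) * σ (x 3) +
      σ (x 1) * σ (x 2) + σ (x 1) * σ (x 3) + σ (x 2) * σ (x 3))
        ∂(Measure.pi (fun _ : Fin 4 => μ)) := by
  set M : Measure (Fin 4 → Pt) := Measure.pi (fun _ : Fin 4 => μ) with hM
  have hC0 : 0 ≤ C := le_trans (abs_nonneg _) (hC 0)
  have hσint : Integrable σ μ :=
    Integrable.of_bound hσ.aestronglyMeasurable C (Eventually.of_forall fun x => by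
      simpa using hC x)
  -- the two perturbed measures
  have key : ∀ ε : ℝ, |ε| * C ≤ 1 →
      F μ ≤ ∫ x in C4, ∏ i, (1 + ε * σ (x i)) ∂M := by
    intro ε hε
    have hg0 : ∀ x, 0 ≤ 1 + ε * σ x := by
      intro x
      have h1 : |ε * σ x| ≤ 1 := by
        rw [abs_mul]
        exact le_trans (mul_le_mul_of_nonneg_left (hC x) (abs_nonneg _)) hε
      have := (abs_le.mp h1).1
      linarith
    have hint : Integrable (fun x => 1 + ε * σ x) μ :=
      (integrable_const 1).add (hσint.const_mul ε)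
    have h1 : ∫ x, (1 + ε * σ x) ∂μ = 1 := by
      rw [integral_add (integrable_const 1) (hσint.const_mul ε), integral_const_mul, h0]
      simp
    have hprob := isProb_withDensity μ _ hg0 hint h1
    have hac : μ.withDensity (fun x => ENNReal.ofReal (1 + ε * σ x)) ≪ volume :=
      (withDensity_absolutelyContinuous _ _).trans hμ
    have := hmin _ hprob hac
    rwa [F_withDensity μ _ hg0 hint] at this
  have hF : F μ = ∫ x in C4, (1 : ℝ) ∂M := by
    rw [F, setIntegral_const, smul_eq_mul, mul_one]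
  set e2 : (Fin 4 → Pt) → ℝ := fun x => (σ (x 0) * σ (x 1) + σ (x 0) * σ (x 2) +
    σ (x 0) * σ (x 3) + σ (x 1) * σ (x 2) + σ (x 1) * σ (x 3) + σ (x 2) * σ (x 3)) with he2
  set e4 : (Fin 4 → Pt) → ℝ := fun x => σ (x 0) * σ (x 1) * σ (x 2) * σ (x 3) with he4
  have hb : ∀ (x : Fin 4 → Pt) i, |σ (x i)| ≤ C := fun x i => hC (x i)
  have hmul : ∀ (x : Fin 4 → Pt) i j, |σ (x i) * σ (x j)| ≤ C * C := fun x i j => by
    rw [abs_mul]
    exact mul_le_mul (hb x i) (hb x j) (abs_nonneg _) hC0
  have he2int : Integrable e2 (M.restrict C4) := by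
    refine Integrable.of_bound (C := 6 * (C * C)) (by
      apply Measurable.aestronglyMeasurable; fun_prop) (Eventually.of_forall fun x => ?_)
    rw [he2, Real.norm_eq_abs, abs_le]
    have h01 := abs_le.mp (hmul x 0 1)
    have h02 := abs_le.mp (hmul x 0 2)
    have h03 := abs_le.mp (hmul x 0 3)
    have h12 := abs_le.mp (hmul x 1 2)
    have h13 := abs_le.mp (hmul x 1 3)
    have h23 := abs_le.mp (hmul x 2 3)
    constructor <;> simp only [] <;> linarith
  have he4int : Integrable e4 (M.restrict C4) := by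
    refine Integrable.of_bound (C := (C * C) * (C * C)) (by
      apply Measurable.aestronglyMeasurable; fun_prop) (Eventually.of_forall fun x => ?_)
    have h1 : e4 x = (σ (x 0) * σ (x 1)) * (σ (x 2) * σ (x 3)) := by rw [he4]; ring
    rw [h1, Real.norm_eq_abs, abs_mul]
    exact mul_le_mul (hmul x 0 1) (hmul x 2 3) (abs_nonneg _) (by positivity)
  have hprodint : ∀ ε : ℝ, Integrable (fun x : Fin 4 → Pt => ∏ i, (1 + ε * σ (x i)))
      (M.restrict C4) := by
    intro ε
    exact (Integrable.fintype_prod (f := fun _ x => 1 + ε * σ x)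
      (fun i => (integrable_const 1).add (hσint.const_mul ε))).integrableOn
  have key2 : ∀ ε : ℝ, 0 < ε → ε * C ≤ 1 →
      0 ≤ (∫ x in C4, e2 x ∂M) + ε ^ 2 * ∫ x in C4, e4 x ∂M := by
    intro ε hε hεC
    have h1 := key ε (by rwa [abs_of_pos hε])
    have h2 := key (-ε) (by rwa [abs_neg, abs_of_pos hε])
    have h3 : (∫ x in C4, ∏ i, (1 + ε * σ (x i)) ∂M) +
        (∫ x in C4, ∏ i, (1 + (-ε) * σ (x i)) ∂M) =
        2 * F μ + 2 * ε ^ 2 * ((∫ x in C4, e2 x ∂M) + ε ^ 2 * ∫ x in C4, e4 x ∂M) := by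
      rw [← integral_add (hprodint ε) (hprodint (-ε)), hF]
      have h4 : ∀ x : Fin 4 → Pt, (∏ i, (1 + ε * σ (x i))) + ∏ i, (1 + (-ε) * σ (x i)) =
          2 * 1 + 2 * ε ^ 2 * (e2 x + ε ^ 2 * e4 x) := by
        intro x
        simp only [Fin.prod_univ_four, he2, he4]
        ring
      simp_rw [h4]
      rw [integral_add (by exact integrable_const _), integral_const_mul, integral_const_mul,
        integral_add he2int (he4int.const_mul _), integral_const_mul]
      exact (he2int.add (he4int.const_mul _)).const_mul _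
    have h5 : 0 ≤ 2 * ε ^ 2 * ((∫ x in C4, e2 x ∂M) + ε ^ 2 * ∫ x in C4, e4 x ∂M) := by
      linarith
    have h6 : 0 < 2 * ε ^ 2 := by positivity
    exact nonneg_of_mul_nonneg_right h5 h6 |> fun h => h
  -- let ε → 0
  have hlim : Tendsto (fun ε : ℝ => (∫ x in C4, e2 x ∂M) + ε ^ 2 * ∫ x in C4, e4 x ∂M)
      (𝓝[>] 0) (𝓝 (∫ x in C4, e2 x ∂M)) := by
    have : Tendsto (fun ε : ℝ => (∫ x in C4, e2 x ∂M) + ε ^ 2 * ∫ x in C4, e4 x ∂M)
      (𝓝 0) (𝓝 ((∫ x in C4, e2 x ∂M) + 0 ^ 2 * ∫ x in C4, e4 x ∂M)) := by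
      apply Continuous.tendsto
      fun_prop
    simp only [ne_eq, OfNat.ofNat_ne_zero, not_false_eq_true, zero_pow, zero_mul, add_zero] at this
    exact this.mono_left nhdsWithin_le_nhds
  refine ge_of_tendsto hlim ?_
  have hpos : (0 : ℝ) < 1 / (C + 1) := by positivity
  filter_upwards [Ioo_mem_nhdsGT hpos] with ε hε
  apply key2 ε hε.1
  have h7 := hε.2
  rw [lt_div_iff₀ (by positivity)] at h7
  nlinarith [hε.1]

lemma sym_integral (μ : Measure Pt) [IsProbabilityMeasure μ] (σ : Pt → ℝ) (hσ : Measurable σ)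
    (e : Fin 4 → Fin 4) (he : Function.Injective e)
    (hinv : ∀ x : Fin 4 → Pt, prd4 (fun k => x (e k)) = prd4 x) :
    ∫ x in C4, σ (x (e 0)) * σ (x (e 1)) ∂(Measure.pi (fun _ : Fin 4 => μ)) =
      ∫ x in C4, σ (x 0) * σ (x 1) ∂(Measure.pi (fun _ : Fin 4 => μ)) := by
  have hmp := mp_precomp (fun _ : Fin 4 => μ) e he
  have h1 : (fun (x : Fin 4 → Pt) (k : Fin 4) => x (e k)) ⁻¹' C4 = C4 := by
    ext x
    simp [C4, hinv]
  have h2 := setIntegral_map (μ := Measure.pi (fun _ : Fin 4 => μ))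
    (g := fun (x : Fin 4 → Pt) (k : Fin 4) => x (e k))
    (f := fun x : Fin 4 → Pt => σ (x 0) * σ (x 1)) measurableSet_C4
    (by apply Measurable.aestronglyMeasurable; fun_prop) hmp.measurable.aemeasurable
  rw [h1, hmp.map_eq] at h2
  exact h2.symm

/-- Second variation inequality, symmetrised. -/
lemma second_variation (μ : Measure Pt) [IsProbabilityMeasure μ] (hμ : μ ≪ volume)
    (hmin : ∀ ν : Measure Pt, IsProbabilityMeasure ν → ν ≪ volume → F μ ≤ F ν)
    (σ : Pt → ℝ) (hσ : Measurable σ) (C : ℝ) (hC : ∀ x, |σ x| ≤ C) (h0 : ∫ x, σ x ∂μ = 0) :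
    0 ≤ ∫ x in C4, σ (x 0) * σ (x 1) ∂(Measure.pi (fun _ : Fin 4 => μ)) := by
  have h := second_variation_aux μ hμ hmin σ hσ C hC h0
  have hC0 : 0 ≤ C := le_trans (abs_nonneg _) (hC 0)
  have hI : ∀ i j : Fin 4, Integrable (fun x : Fin 4 → Pt => σ (x i) * σ (x j))
      ((Measure.pi (fun _ : Fin 4 => μ)).restrict C4) := by
    intro i j
    refine Integrable.of_bound (C := C * C) (by
      apply Measurable.aestronglyMeasurable; fun_prop) (Eventually.of_forall fun x => ?_)
    rw [Real.norm_eq_abs, abs_mul]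
    exact mul_le_mul (hC _) (hC _) (abs_nonneg _) hC0
  rw [integral_add (((((hI 0 1).fun_add (hI 0 2)).fun_add (hI 0 3)).fun_add (hI 1 2)).fun_add
      (hI 1 3)) (hI 2 3),
    integral_add ((((hI 0 1).fun_add (hI 0 2)).fun_add (hI 0 3)).fun_add (hI 1 2)) (hI 1 3),
    integral_add (((hI 0 1).fun_add (hI 0 2)).fun_add (hI 0 3)) (hI 1 2),
    integral_add ((hI 0 1).fun_add (hI 0 2)) (hI 0 3),
    integral_add (hI 0 1) (hI 0 2)] at h
  have h02 := sym_integral μ σ hσ ![0, 2, 1, 3] (by decide) (by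
    intro x; simp only [prd4, prd, ori_eq, Matrix.cons_val]; ring)
  have h03 := sym_integral μ σ hσ ![0, 3, 1, 2] (by decide) (by
    intro x; simp only [prd4, prd, ori_eq, Matrix.cons_val]; ring)
  have h12 := sym_integral μ σ hσ ![1, 2, 0, 3] (by decide) (by
    intro x; simp only [prd4, prd, ori_eq, Matrix.cons_val]; ring)
  have h13 := sym_integral μ σ hσ ![1, 3, 0, 2] (by decide) (by
    intro x; simp only [prd4, prd, ori_eq, Matrix.cons_val]; ring)
  have h23 := sym_integral μ σ hσ ![2, 3, 0, 1] (by decide) (by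
    intro x; simp only [prd4, prd, ori_eq, Matrix.cons_val]; ring)
  simp only [Matrix.cons_val] at h02 h03 h12 h13 h23
  rw [h02, h03, h12, h13, h23] at h
  linarith

/-- mixed products -/
noncomputable def G (μ α β : Measure Pt) : ℝ := (Measure.pi ![α, β, μ, μ]).real C4

lemma prob4 (a b c d : Measure Pt) [IsProbabilityMeasure a] [IsProbabilityMeasure b]
    [IsProbabilityMeasure c] [IsProbabilityMeasure d] :
    ∀ i : Fin 4, IsProbabilityMeasure ((![a, b, c, d] : Fin 4 → Measure Pt) i) := by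
  intro i
  fin_cases i <;> simp <;> infer_instance

lemma pi_cond (μ : Measure Pt) [IsProbabilityMeasure μ] {A B : Set Pt} (hA : MeasurableSet A)
    (hB : MeasurableSet B) (hA0 : μ A ≠ 0) (hB0 : μ B ≠ 0) :
    Measure.pi ![μ[|A], μ[|B], μ, μ] = ((μ A)⁻¹ * (μ B)⁻¹) •
      (Measure.pi (fun _ : Fin 4 => μ)).restrict {x | x 0 ∈ A ∧ x 1 ∈ B} := by
  have hPA : IsProbabilityMeasure (μ[|A]) := cond_isProbabilityMeasure hA0
  have hPB : IsProbabilityMeasure (μ[|B]) := cond_isProbabilityMeasure hB0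
  have := prob4 (μ[|A]) (μ[|B]) μ μ
  apply Measure.pi_eq
  intro s hs
  rw [Measure.smul_apply, Measure.restrict_apply (MeasurableSet.univ_pi hs)]
  have h1 : Set.univ.pi s ∩ {x : Fin 4 → Pt | x 0 ∈ A ∧ x 1 ∈ B} =
      Set.univ.pi ![A ∩ s 0, B ∩ s 1, s 2, s 3] := by
    ext x
    simp only [Set.mem_inter_iff, Set.mem_pi, Set.mem_univ, true_implies, Fin.forall_fin_succ,
      Set.mem_ofPred_eq, Matrix.cons_val]
    simp
    tauto
  rw [h1, Measure.pi_pi, Fin.prod_univ_four, Fin.prod_univ_four]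
  simp only [Matrix.cons_val, cond_apply hA, cond_apply hB, smul_eq_mul]
  ring

lemma G_cond (μ : Measure Pt) [IsProbabilityMeasure μ] {A B : Set Pt} (hA : MeasurableSet A)
    (hB : MeasurableSet B) (hA0 : μ A ≠ 0) (hB0 : μ B ≠ 0) :
    G μ (μ[|A]) (μ[|B]) = (μ.real A)⁻¹ * (μ.real B)⁻¹ *
      ∫ x in C4, A.indicator 1 (x 0) * B.indicator 1 (x 1) ∂(Measure.pi (fun _ : Fin 4 => μ)) := by
  rw [G, pi_cond μ hA hB hA0 hB0]
  have hm : MeasurableSet {x : Fin 4 → Pt | x 0 ∈ A ∧ x 1 ∈ B} :=
    (hA.preimage (measurable_pi_apply 0)).inter (hB.preimage (measurable_pi_apply 1))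
  rw [measureReal_def, Measure.smul_apply, Measure.restrict_apply measurableSet_C4, smul_eq_mul,
    ENNReal.toReal_mul, ENNReal.toReal_mul, ENNReal.toReal_inv, ENNReal.toReal_inv,
    ← measureReal_def, ← measureReal_def, ← measureReal_def]
  congr 1
  have h2 : (fun x : Fin 4 → Pt => A.indicator (1 : Pt → ℝ) (x 0) * B.indicator (1 : Pt → ℝ) (x 1))
      = ({x : Fin 4 → Pt | x 0 ∈ A ∧ x 1 ∈ B}).indicator 1 := by
    ext x
    by_cases h0 : x 0 ∈ A <;> by_cases h1 : x 1 ∈ B <;> simp [h0, h1]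
  rw [h2, integral_indicator_one hm, measureReal_restrict_apply hm, Set.inter_comm]

/-- Second variation inequality for pairs of sets. -/
lemma second_variation_sets (μ : Measure Pt) [IsProbabilityMeasure μ] (hμ : μ ≪ volume)
    (hmin : ∀ ν : Measure Pt, IsProbabilityMeasure ν → ν ≪ volume → F μ ≤ F ν)
    {A B : Set Pt} (hA : MeasurableSet A) (hB : MeasurableSet B) (hA0 : μ A ≠ 0)
    (hB0 : μ B ≠ 0) :
    G μ (μ[|A]) (μ[|B]) + G μ (μ[|B]) (μ[|A]) ≤
      G μ (μ[|A]) (μ[|A]) + G μ (μ[|B]) (μ[|B]) := by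
  have ha : 0 < μ.real A := by
    rw [measureReal_def]; exact ENNReal.toReal_pos hA0 (measure_ne_top _ _)
  have hb : 0 < μ.real B := by
    rw [measureReal_def]; exact ENNReal.toReal_pos hB0 (measure_ne_top _ _)
  set a := (μ.real A)⁻¹ with haa
  set b := (μ.real B)⁻¹ with hbb
  have ha0 : 0 < a := inv_pos.mpr ha
  have hb0 : 0 < b := inv_pos.mpr hb
  set σ : Pt → ℝ := fun x => a * A.indicator 1 x - b * B.indicator 1 x with hσ
  have hind : ∀ (S : Set Pt) x, 0 ≤ S.indicator (1 : Pt → ℝ) x ∧ S.indicator (1 : Pt → ℝ) x ≤ 1 := by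
    intro S x
    by_cases h : x ∈ S <;> simp [h]
  have hσm : Measurable σ := by
    apply Measurable.sub
    · exact (measurable_one.indicator hA).const_mul a
    · exact (measurable_one.indicator hB).const_mul b
  have hσb : ∀ x, |σ x| ≤ a + b := by
    intro x
    rw [hσ, abs_le]
    have h1 := hind A x
    have h2 := hind B x
    constructor <;> simp only [] <;> nlinarith
  have hσ0 : ∫ x, σ x ∂μ = 0 := by
    rw [hσ, integral_sub, integral_const_mul, integral_const_mul, integral_indicator_one hA,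
      integral_indicator_one hB, haa, hbb, inv_mul_cancel₀ ha.ne', inv_mul_cancel₀ hb.ne', sub_self]
    · exact ((integrable_const (1 : ℝ)).indicator hA).const_mul a
    · exact ((integrable_const (1 : ℝ)).indicator hB).const_mul b
  have h := second_variation μ hμ hmin σ hσm (a + b) hσb hσ0
  have hI : ∀ S T : Set Pt, MeasurableSet S → MeasurableSet T → Integrable
      (fun x : Fin 4 → Pt => S.indicator (1 : Pt → ℝ) (x 0) * T.indicator (1 : Pt → ℝ) (x 1))
      ((Measure.pi (fun _ : Fin 4 => μ)).restrict C4) := by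
    intro S T hS hT
    refine Integrable.of_bound (C := 1) ?_ (Eventually.of_forall fun x => ?_)
    · apply Measurable.aestronglyMeasurable
      exact ((measurable_one.indicator hS).comp (measurable_pi_apply 0)).mul
        ((measurable_one.indicator hT).comp (measurable_pi_apply 1))
    · rw [Real.norm_eq_abs, abs_le]
      have h1 := hind S (x 0)
      have h2 := hind T (x 1)
      constructor <;> nlinarith [mul_nonneg h1.1 h2.1]
  have hexp : ∀ x : Fin 4 → Pt, σ (x 0) * σ (x 1) =
      a * a * (A.indicator 1 (x 0) * A.indicator 1 (x 1)) -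
      a * b * (A.indicator 1 (x 0) * B.indicator 1 (x 1)) -
      b * a * (B.indicator 1 (x 0) * A.indicator 1 (x 1)) +
      b * b * (B.indicator 1 (x 0) * B.indicator 1 (x 1)) := by
    intro x
    simp only [hσ]
    ring
  simp_rw [hexp] at h
  rw [integral_add ((((hI A A hA hA).const_mul _).sub' ((hI A B hA hB).const_mul _)).sub'
      ((hI B A hB hA).const_mul _)) ((hI B B hB hB).const_mul _),
    integral_sub (((hI A A hA hA).const_mul _).sub' ((hI A B hA hB).const_mul _))
      ((hI B A hB hA).const_mul _),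
    integral_sub ((hI A A hA hA).const_mul _) ((hI A B hA hB).const_mul _),
    integral_const_mul, integral_const_mul, integral_const_mul, integral_const_mul] at h
  rw [G_cond μ hA hB hA0 hB0, G_cond μ hB hA hB0 hA0, G_cond μ hA hA hA0 hA0,
    G_cond μ hB hB hB0 hB0, ← haa, ← hbb]
  linarith

end Pool.Agent.H21.Sylv
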